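import Pool.Agent.N337.DW.Defs

/-!
# Trivial holonomy of all group valued cocycles implies triviality of the edge-path group
-/

namespace N337.DW
open SimpleGraph

section
variable {V : Type} {G : SimpleGraph V} {Cell : ∀ v : V, G.Walk v v → Prop}

/-- the holonomy of a walk -/
def hol {H : Type*} [Group H] (c : V → V → H) : ∀ {u v : V}, G.Walk u v → H
  | _, _, .nil => 1
  | u, _, .cons (v := w) _ p => c u w * hol c p

theorem Htpy.append_reverse {u v : V} (p : G.Walk u v) :
    Htpy Cell (p.append p.reverse) Walk.nil := by
  induction p with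
  | nil => exact Htpy.refl _
  | @cons u v w h q ih =>
    have e : (Walk.cons h q).append (Walk.cons h q).reverse =
        (Walk.cons h Walk.nil).append ((q.append q.reverse).append (Walk.cons h.symm Walk.nil)) := by
      simp [← Walk.append_assoc]
    rw [e]
    have h1 : Htpy Cell ((q.append q.reverse).append (Walk.cons h.symm Walk.nil))
        (Walk.nil.append (Walk.cons h.symm Walk.nil)) := Htpy.append ih (Htpy.refl _)
    have h2 := Htpy.append (Htpy.refl (Cell := Cell) (Walk.cons h Walk.nil)) h1
    refine Htpy.trans h2 ?_
    simpa using Htpy.back (Cell := Cell) h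

theorem Htpy.reverse_append {u v : V} (p : G.Walk u v) :
    Htpy Cell (p.reverse.append p) Walk.nil := by
  have := Htpy.append_reverse (Cell := Cell) p.reverse
  simpa using this

theorem Htpy.reverse {u v : V} {p q : G.Walk u v} (h : Htpy Cell p q) :
    Htpy Cell p.reverse q.reverse := by
  have h1 : Htpy Cell p.reverse (p.reverse.append (q.append q.reverse)) := by
    have := Htpy.append (Htpy.refl (Cell := Cell) p.reverse)
      (Htpy.symm (Htpy.append_reverse (Cell := Cell) q))
    simpa using this
  have h2 : Htpy Cell (p.reverse.append (q.append q.reverse))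
      (p.reverse.append (p.append q.reverse)) :=
    Htpy.append (Htpy.refl _) (Htpy.append (Htpy.symm h) (Htpy.refl _))
  have h3 : Htpy Cell (p.reverse.append (p.append q.reverse)) q.reverse := by
    rw [Walk.append_assoc]
    have := Htpy.append (Htpy.reverse_append (Cell := Cell) p) (Htpy.refl (Cell := Cell) q.reverse)
    simpa using this
  exact h1.trans (h2.trans h3)

/-- loops at `b` up to homotopy -/
def loopSetoid (Cell : ∀ v : V, G.Walk v v → Prop) (b : V) : Setoid (G.Walk b b) where
  r := Htpy Cell
  iseqv := ⟨Htpy.refl, Htpy.symm, Htpy.trans⟩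

/-- the edge path group -/
def LG (Cell : ∀ v : V, G.Walk v v → Prop) (b : V) : Type := Quotient (loopSetoid Cell b)

def LG.mk (Cell : ∀ v : V, G.Walk v v → Prop) {b : V} (p : G.Walk b b) : LG Cell b :=
  Quotient.mk (loopSetoid Cell b) p

theorem LG.mk_eq {b : V} {p q : G.Walk b b} (h : Htpy Cell p q) : LG.mk Cell p = LG.mk Cell q :=
  Quotient.sound (s := loopSetoid Cell b) h

theorem LG.exact {b : V} {p q : G.Walk b b} (h : LG.mk Cell p = LG.mk Cell q) : Htpy Cell p q :=
  Quotient.exact (s := loopSetoid Cell b) h

def LG.mul {b : V} (x y : LG Cell b) : LG Cell b :=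
  Quotient.map₂ (sa := loopSetoid Cell b) (sb := loopSetoid Cell b) (sc := loopSetoid Cell b)
    (fun p q => p.append q) (fun _ _ h1 _ _ h2 => Htpy.append h1 h2) x y

def LG.inv {b : V} (x : LG Cell b) : LG Cell b :=
  Quotient.map (sa := loopSetoid Cell b) (sb := loopSetoid Cell b)
    (fun p => p.reverse) (fun _ _ h => Htpy.reverse h) x

instance {b : V} : Mul (LG Cell b) := ⟨LG.mul⟩
instance {b : V} : One (LG Cell b) := ⟨LG.mk Cell Walk.nil⟩
instance {b : V} : Inv (LG Cell b) := ⟨LG.inv⟩

theorem LG.mk_mul {b : V} (p q : G.Walk b b) :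
    LG.mk Cell p * LG.mk Cell q = LG.mk Cell (p.append q) := rfl
theorem LG.mk_inv {b : V} (p : G.Walk b b) :
    (LG.mk Cell p)⁻¹ = LG.mk Cell p.reverse := rfl
theorem LG.one_def {b : V} : (1 : LG Cell b) = LG.mk Cell Walk.nil := rfl

theorem LG.ind {b : V} {P : LG Cell b → Prop} (h : ∀ p, P (LG.mk Cell p)) (x : LG Cell b) : P x :=
  Quotient.ind (s := loopSetoid Cell b) h x

instance {b : V} : Group (LG Cell b) := Group.ofLeftAxioms
  (by
    intro x y z
    induction x using LG.ind
    induction y using LG.ind
    induction z using LG.ind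
    simp [LG.mk_mul, ← Walk.append_assoc])
  (by
    intro x
    induction x using LG.ind
    simp [LG.one_def, LG.mk_mul])
  (by
    intro x
    induction x using LG.ind
    rw [LG.mk_inv, LG.mk_mul, LG.one_def]
    exact LG.mk_eq (Htpy.reverse_append _))

theorem LG.mk_mul' {b : V} (p q : G.Walk b b) :
    LG.mk Cell p * LG.mk Cell q = LG.mk Cell (p.append q) := rfl
theorem LG.one_def' {b : V} : (1 : LG Cell b) = LG.mk Cell Walk.nil := rfl

theorem htpy_of_cocycle (hG : G.Connected)
    (h : ∀ (H : Type) [Group H] (c : V → V → H), (∀ A, c A A = 1) → (∀ A B, c A B * c B A = 1) →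
      (∀ v (p : G.Walk v v), Cell v p → hol c p = 1) →
      ∃ φ : V → H, ∀ A B, G.Adj A B → c A B = (φ A)⁻¹ * φ B)
    (v : V) (p : G.Walk v v) : Htpy Cell p Walk.nil := by
  classical
  have hne : Nonempty V := hG.nonempty
  obtain ⟨b⟩ := hne
  have hP : ∀ w : V, Nonempty (G.Walk b w) := fun w => hG.preconnected b w
  let P : ∀ w : V, G.Walk b w := fun w => (hP w).some
  let c : V → V → LG Cell b := fun A B =>
    if hAB : G.Adj A B then LG.mk Cell ((P A).append (Walk.cons hAB (P B).reverse)) else 1
  have hc : ∀ A B (hAB : G.Adj A B),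
      c A B = LG.mk Cell ((P A).append (Walk.cons hAB (P B).reverse)) := by
    intro A B hAB
    simp [c, hAB]
  have hhol : ∀ {x y : V} (q : G.Walk x y),
      hol c q = LG.mk Cell ((P x).append (q.append (P y).reverse)) := by
    intro x y q
    induction q with
    | nil =>
      rw [hol, LG.one_def']
      refine (LG.mk_eq ?_).symm
      simpa using Htpy.append_reverse (Cell := Cell) _
    | @cons x w y hxw q ih =>
      rw [hol, ih, hc _ _ hxw, LG.mk_mul']
      apply LG.mk_eq
      have e : ((P x).append (Walk.cons hxw (P w).reverse)).append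
          ((P w).append (q.append (P y).reverse)) =
          ((P x).append (Walk.cons hxw Walk.nil)).append
            (((P w).reverse.append (P w)).append (q.append (P y).reverse)) := by
        simp [← Walk.append_assoc]
      rw [e]
      have h1 := Htpy.append (Htpy.refl (Cell := Cell) ((P x).append (Walk.cons hxw Walk.nil)))
        (Htpy.append (Htpy.reverse_append (Cell := Cell) (P w))
          (Htpy.refl (Cell := Cell) (q.append (P y).reverse)))
      refine Htpy.trans h1 ?_
      simpa [← Walk.append_assoc] using Htpy.refl (Cell := Cell) _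
  obtain ⟨φ, hφ⟩ := h (LG Cell b) c
    (by
      intro A
      simp [c])
    (by
      intro A B
      by_cases hAB : G.Adj A B
      · have e : c A B * c B A = hol c (Walk.cons hAB (Walk.cons hAB.symm Walk.nil)) := by
          simp [hol]
        rw [e, hhol, LG.one_def']
        apply LG.mk_eq
        have h1 := Htpy.append (Htpy.refl (Cell := Cell) (P A))
          (Htpy.append (Htpy.back (Cell := Cell) hAB) (Htpy.refl (Cell := Cell) (P A).reverse))
        refine Htpy.trans h1 ?_
        simpa using Htpy.append_reverse (Cell := Cell) (P A)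
      · have hBA : ¬ G.Adj B A := fun h => hAB h.symm
        simp [c, hAB, hBA])
    (by
      intro v p hp
      rw [hhol, LG.one_def']
      apply LG.mk_eq
      have h1 := Htpy.append (Htpy.refl (Cell := Cell) (P v))
          (Htpy.append (Htpy.cell (Cell := Cell) p hp) (Htpy.refl (Cell := Cell) (P v).reverse))
      refine Htpy.trans h1 ?_
      simpa using Htpy.append_reverse (Cell := Cell) (P v))
  have key : ∀ {x y : V} (q : G.Walk x y), hol c q = (φ x)⁻¹ * φ y := by
    intro x y q
    induction q with
    | nil => simp [hol]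
    | cons hxw q ih => rw [hol, ih, hφ _ _ hxw]; group
  have h1 := key p
  rw [hhol, inv_mul_cancel, LG.one_def'] at h1
  have h2 := LG.exact h1
  -- conjugate back
  have e1 : Htpy Cell p
      ((P v).reverse.append (((P v).append (p.append (P v).reverse)).append (P v))) := by
    have e2 : (P v).reverse.append (((P v).append (p.append (P v).reverse)).append (P v)) =
        ((P v).reverse.append (P v)).append (p.append ((P v).reverse.append (P v))) := by
      simp [← Walk.append_assoc]
    rw [e2]
    have := Htpy.append (Htpy.symm (Htpy.reverse_append (Cell := Cell) (P v)))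
      (Htpy.append (Htpy.refl (Cell := Cell) p)
        (Htpy.symm (Htpy.reverse_append (Cell := Cell) (P v))))
    simpa using this
  refine e1.trans ?_
  have h3 := Htpy.append (Htpy.refl (Cell := Cell) (P v).reverse)
    (Htpy.append h2 (Htpy.refl (Cell := Cell) (P v)))
  refine h3.trans ?_
  simpa using Htpy.reverse_append (Cell := Cell) (P v)

end

end N337.DW
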