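import Pool.Agent.N337.DW.Graph
import Pool.Agent.N337.DW.Hol

/-!
# The relations given by the 2-cells
-/

namespace N337.DW
open SimpleGraph

variable {m : ℕ}

/-- a cocycle on the vertices -/
structure VCoc {H : Type} [Group H] (c0 : Vert m → Vert m → H) : Prop where
  refl : ∀ A, c0 A A = 1
  symm : ∀ A B, c0 A B * c0 B A = 1
  cell : ∀ v (p : (flipGraph m).Walk v v), IsCell v p → hol c0 p = 1

section
variable {H : Type} [Group H] {c0 : Vert m → Vert m → H}

/-- a closed walk `u → v ⇝ u` whose second part is a path of length at least two is a cycle -/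
theorem isCycle_cons {V : Type} {G : SimpleGraph V} {u v : V} (h : G.Adj u v) (q : G.Walk v u)
    (hq : q.IsPath) (hl : 2 ≤ q.length) : (Walk.cons h q).IsCycle := by
  rw [Walk.cons_isCycle_iff]
  refine ⟨hq, ?_⟩
  cases q with
  | nil => simp at hl
  | @cons _ w _ h2 q =>
    rw [Walk.cons_isPath_iff] at hq
    intro he
    rw [Walk.edges_cons, List.mem_cons] at he
    rcases he with he | he
    · rw [Sym2.eq_iff] at he
      rcases he with ⟨h3, -⟩ | ⟨h3, -⟩
      · exact h.ne h3
      · subst h3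
        have hn : q.length = 0 := by
          rw [Walk.isPath_iff_eq_nil.mp hq.1]; rfl
        rw [Walk.length_cons, hn] at hl
        omega
    · exact hq.2 (Walk.snd_mem_support_of_mem_edges q he)

theorem VCoc.four (h : VCoc c0) {A B C D : Vert m} (h1 : (flipGraph m).Adj A B)
    (h2 : (flipGraph m).Adj B C) (h3 : (flipGraph m).Adj C D) (h4 : (flipGraph m).Adj D A) :
    c0 A B * c0 B C * c0 C D * c0 D A = 1 := by
  by_cases e1 : A = C
  · subst e1
    rw [h.symm, one_mul, h.symm]
  by_cases e2 : B = D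
  · subst e2
    rw [mul_assoc (c0 A B), h.symm, mul_one, h.symm]
  have hp : (Walk.cons h2 (Walk.cons h3 (Walk.cons h4 Walk.nil))).IsPath := by
    simp [Walk.cons_isPath_iff, h2.ne, h3.ne, h4.ne, e2, h1.ne.symm, Ne.symm e1]
  have hc := isCycle_cons h1 _ hp (by simp)
  have := h.cell A _ ⟨hc, Or.inl (by simp)⟩
  simpa [hol, mul_assoc] using this

theorem VCoc.five (h : VCoc c0) {A B C D E : Vert m} (h1 : (flipGraph m).Adj A B)
    (h2 : (flipGraph m).Adj B C) (h3 : (flipGraph m).Adj C D) (h4 : (flipGraph m).Adj D E)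
    (h5 : (flipGraph m).Adj E A) (hAC : A ≠ C) (hAD : A ≠ D) (hBD : B ≠ D) (hBE : B ≠ E)
    (hCE : C ≠ E) :
    c0 A B * c0 B C * c0 C D * c0 D E * c0 E A = 1 := by
  have hp : (Walk.cons h2 (Walk.cons h3 (Walk.cons h4 (Walk.cons h5 Walk.nil)))).IsPath := by
    simp [Walk.cons_isPath_iff, h2.ne, h3.ne, h4.ne, h5.ne, h1.ne.symm, hAC.symm, hAD.symm, hBD,
      hBE, hCE]
  have hc := isCycle_cons h1 _ hp (by simp)
  have := h.cell A _ ⟨hc, Or.inr (Or.inl (by simp))⟩
  simpa [hol, mul_assoc] using this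

theorem CoxAdj.adj {c : Bool} {A B : Vert m} (h : CoxAdj c A B) : (flipGraph m).Adj A B :=
  Or.inr ⟨c, h⟩

theorem MixAdj.adj {A B : Vert m} (h : MixAdj A B) : (flipGraph m).Adj A B := Or.inl h

theorem VCoc.eight (h : VCoc c0) (c : Bool) {A B C D E F G K : Vert m} (h1 : CoxAdj c A B)
    (h2 : CoxAdj c B C) (h3 : CoxAdj c C D) (h4 : CoxAdj c D E) (h5 : CoxAdj c E F)
    (h6 : CoxAdj c F G) (h7 : CoxAdj c G K) (h8 : CoxAdj c K A)
    (hnd : [B, C, D, E, F, G, K, A].Nodup) :
    c0 A B * c0 B C * c0 C D * c0 D E * c0 E F * c0 F G * c0 G K * c0 K A = 1 := by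
  have hp : (Walk.cons h2.adj (Walk.cons h3.adj (Walk.cons h4.adj (Walk.cons h5.adj
      (Walk.cons h6.adj (Walk.cons h7.adj (Walk.cons h8.adj Walk.nil))))))).IsPath := by
    rw [Walk.isPath_def]
    simpa using hnd
  have hc := isCycle_cons h1.adj _ hp (by simp)
  have := h.cell A _ ⟨hc, Or.inr (Or.inr ⟨by simp, c, by
    simp [h1, h2, h3, h4, h5, h6, h7, h8]⟩)⟩
  simpa [hol, mul_assoc] using this

/-! ### classes of words -/

open Classical in
/-- the class of a word -/
noncomputable def cls (w : List (Letter m)) : Option (Vert m) :=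
  if h : IsDouble w then some (Vert.mk ⟨w, h⟩) else none

theorem cls_of {w : List (Letter m)} (h : IsDouble w) : cls w = some (Vert.mk ⟨w, h⟩) := by
  simp [cls, h]

theorem Step.dbl {u v : List (Letter m)} (h : Step u v) : IsDouble u ↔ IsDouble v := by
  rw [isDouble_iff, isDouble_iff]; exact h.good _

theorem Step.append_left {u v : List (Letter m)} (h : Step u v) (p : List (Letter m)) :
    Step (p ++ u) (p ++ v) := by
  induction p with
  | nil => exact h
  | cons a p ih => exact ih.cons a

theorem Step.of_comm {u v : List (Letter m)} (h : CommStep u v) : Step u v := by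
  obtain ⟨p, q, a, b, hab⟩ := h
  exact Step.swap p q (indep_ne hab) (indep_nadj hab)

theorem cls_comm {u v : List (Letter m)} (h : CommStep u v) : cls u = cls v := by
  by_cases hu : IsDouble u
  · have hv : IsDouble v := (Step.of_comm h).dbl.mp hu
    rw [cls_of hu, cls_of hv]
    congr 1
    exact Quotient.sound (s := commSetoid m) (Relation.EqvGen.rel _ _ h)
  · have hv : ¬ IsDouble v := fun hv => hu ((Step.of_comm h).dbl.mpr hv)
    simp [cls, hu, hv]

theorem cls_swap (p pre q : List (Letter m)) {a b : Letter m} (h : Indep a b) :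
    cls (p ++ (pre ++ a :: b :: q)) = cls (p ++ (pre ++ b :: a :: q)) := by
  have := cls_comm (CommStep.mk (p ++ pre) q a b h)
  simpa using this

/-- extension of `c0` to words -/
noncomputable def c1 (c0 : Vert m → Vert m → H) (x y : Option (Vert m)) : H :=
  match x, y with
  | some A, some B => c0 A B
  | _, _ => 1

theorem c1_some (A B : Vert m) : c1 c0 (some A) (some B) = c0 A B := rfl

theorem VCoc.c1_self (h : VCoc c0) (x : Option (Vert m)) : c1 c0 x x = 1 := by
  cases x with
  | none => rfl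
  | some A => exact h.refl A

theorem VCoc.c1_symm (h : VCoc c0) (x y : Option (Vert m)) : c1 c0 x y * c1 c0 y x = 1 := by
  cases x <;> cases y <;> simp [c1, h.symm]

/-- the cocycle on words -/
noncomputable def cw (c0 : Vert m → Vert m → H) (u v : List (Letter m)) : H :=
  c1 c0 (cls u) (cls v)

theorem coxAdj_of (p pre q : List (Letter m)) {a b : Letter m} (h : adjc a b)
    {A B : Vert m} (hA : cls (p ++ (pre ++ a :: b :: a :: q)) = some A)
    (hB : cls (p ++ (pre ++ b :: a :: b :: q)) = some B) : CoxAdj a.1 A B := by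
  have h1 : IsDouble (p ++ (pre ++ a :: b :: a :: q)) := by
    by_contra hn; simp [cls, hn] at hA
  have h2 : IsDouble (p ++ (pre ++ b :: a :: b :: q)) := by
    by_contra hn; simp [cls, hn] at hB
  rw [cls_of h1] at hA
  rw [cls_of h2] at hB
  refine ⟨⟨_, h1⟩, ⟨_, h2⟩, Option.some.inj hA, Option.some.inj hB, ?_⟩
  obtain ⟨c, i⟩ := a
  obtain ⟨c', j⟩ := b
  obtain ⟨hc, h3⟩ := h
  dsimp only at hc h3
  subst hc
  have := CoxStep.mk (c := c) (p ++ pre) q i j h3
  simpa using this

theorem mixAdj_of (p pre q : List (Letter m)) {a b : Letter m} (h : a.1 ≠ b.1) (h' : a.2 = b.2)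
    {A B : Vert m} (hA : cls (p ++ (pre ++ a :: b :: q)) = some A)
    (hB : cls (p ++ (pre ++ b :: a :: q)) = some B) : MixAdj A B := by
  have h1 : IsDouble (p ++ (pre ++ a :: b :: q)) := by
    by_contra hn; simp [cls, hn] at hA
  have h2 : IsDouble (p ++ (pre ++ b :: a :: q)) := by
    by_contra hn; simp [cls, hn] at hB
  rw [cls_of h1] at hA
  rw [cls_of h2] at hB
  refine ⟨⟨_, h1⟩, ⟨_, h2⟩, Option.some.inj hA, Option.some.inj hB, ?_⟩
  obtain ⟨c, i⟩ := a
  obtain ⟨c', j⟩ := b
  dsimp only at h h'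
  subst h'
  have hc : c' = !c := by cases c <;> cases c' <;> simp_all
  subst hc
  have := MixStep.mk (p ++ pre) q c i
  simpa using this

/-- distinctness -/
theorem cls_ne (p w w' q : List (Letter m)) {A B : Vert m} (a b : Letter m)
    (hab : ¬ Indep a b) (hA : cls (p ++ (w ++ q)) = some A) (hB : cls (p ++ (w' ++ q)) = some B)
    (hne : proj a b w ≠ proj a b w') : A ≠ B := by
  have h1 : IsDouble (p ++ (w ++ q)) := by
    by_contra hn; simp [cls, hn] at hA
  have h2 : IsDouble (p ++ (w' ++ q)) := by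
    by_contra hn; simp [cls, hn] at hB
  rw [cls_of h1] at hA
  rw [cls_of h2] at hB
  rintro rfl
  have h3 := Option.some.inj (hA.trans hB.symm)
  have h4 := proj_of_eq h3 hab
  simp only [proj_append] at h4
  exact hne (List.append_cancel_right (List.append_cancel_left h4))

theorem exists_cls {w : List (Letter m)} (h : IsDouble w) : ∃ A, cls w = some A := ⟨_, cls_of h⟩

/-- dichotomy for non-independent different letters -/
theorem dep_cases {a b : Letter m} (h : a ≠ b) (h1 : ¬ adjc a b) (h2 : ¬ Indep a b) :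
    a.1 ≠ b.1 ∧ a.2 = b.2 := by
  have h3 : a.1 ≠ b.1 := by
    intro h4
    exact h2 (Or.inl ⟨h4, far_of h h1 h4⟩)
  refine ⟨h3, ?_⟩
  by_contra h4
  exact h2 (Or.inr ⟨h3, h4⟩)

end

end N337.DW
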