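import Mathlib

/-!
# Double wiring diagrams, their flip graph, and edge-path homotopy
-/

namespace N337.DW

/-- A letter of a double word on `m + 1` strands: a colour (`false` = unbarred, `true` = barred)
and the index of an adjacent transposition. -/
abbrev Letter (m : ℕ) := Bool × Fin m

/-- The adjacent transposition `s_i` of `m + 1` points. -/
def gen {m : ℕ} (i : Fin m) : Equiv.Perm (Fin (m + 1)) := Equiv.swap i.castSucc i.succ

/-- `l` is a reduced word for the longest permutation `w₀` of `m + 1` points, i.e. a word of
length `(m+1 choose 2)` with product `w₀`. -/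
def IsSingle {m : ℕ} (l : List (Fin m)) : Prop :=
  (l.map gen).prod = Fin.revPerm ∧ l.length = (m + 1).choose 2

/-- The letters of colour `c` of `w`, read in order, with the colours removed. -/
def colour {m : ℕ} (c : Bool) (w : List (Letter m)) : List (Fin m) :=
  (w.filter (fun a => a.1 = c)).map Prod.snd

/-- `w` is (a word representing) a double wiring diagram on `m + 1` strands: its unbarred letters
form a reduced word for `w₀`, and so do its barred letters. -/
def IsDouble {m : ℕ} (w : List (Letter m)) : Prop := ∀ c : Bool, IsSingle (colour c w)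

/-- The letters `a` and `b` may be commuted: same colour and indices differing by at least two,
or different colours and different indices. -/
def Indep {m : ℕ} (a b : Letter m) : Prop :=
  (a.1 = b.1 ∧ (a.2.val + 2 ≤ b.2.val ∨ b.2.val + 2 ≤ a.2.val)) ∨ (a.1 ≠ b.1 ∧ a.2 ≠ b.2)

/-- One commutation. -/
inductive CommStep {m : ℕ} : List (Letter m) → List (Letter m) → Prop
  | mk (p q : List (Letter m)) (a b : Letter m) (h : Indep a b) :
      CommStep (p ++ a :: b :: q) (p ++ b :: a :: q)

/-- One Coxeter move of colour `c`. -/
inductive CoxStep {m : ℕ} (c : Bool) : List (Letter m) → List (Letter m) → Prop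
  | mk (p q : List (Letter m)) (i j : Fin m) (h : i.val + 1 = j.val ∨ j.val + 1 = i.val) :
      CoxStep c (p ++ (c, i) :: (c, j) :: (c, i) :: q) (p ++ (c, j) :: (c, i) :: (c, j) :: q)

/-- One mixed move. -/
inductive MixStep {m : ℕ} : List (Letter m) → List (Letter m) → Prop
  | mk (p q : List (Letter m)) (c : Bool) (i : Fin m) :
      MixStep (p ++ (c, i) :: (!c, i) :: q) (p ++ (!c, i) :: (c, i) :: q)

/-- Words representing double wiring diagrams. -/
def Dbl (m : ℕ) : Type := {w : List (Letter m) // IsDouble w}

/-- Two words are identified if they differ by commutations. -/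
def commSetoid (m : ℕ) : Setoid (Dbl m) where
  r := Relation.EqvGen (fun x y : Dbl m => CommStep x.1 y.1)
  iseqv := Relation.EqvGen.is_equivalence _

/-- The vertices of the flip graph: double wiring diagrams up to commutations. -/
def Vert (m : ℕ) : Type := Quotient (commSetoid m)

/-- The class of a word. -/
def Vert.mk {m : ℕ} (u : Dbl m) : Vert m := Quotient.mk (commSetoid m) u

/-- `A` and `B` are related by a Coxeter move of colour `c`. -/
def CoxAdj {m : ℕ} (c : Bool) (A B : Vert m) : Prop :=
  ∃ u v : Dbl m, Vert.mk u = A ∧ Vert.mk v = B ∧ CoxStep c u.1 v.1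

/-- `A` and `B` are related by a mixed move. -/
def MixAdj {m : ℕ} (A B : Vert m) : Prop :=
  ∃ u v : Dbl m, Vert.mk u = A ∧ Vert.mk v = B ∧ MixStep u.1 v.1

/-! ### edge-path homotopy -/

/-- Homotopy of walks in the 2-complex obtained from the graph `G` by attaching a 2-cell along
every closed walk in `Cell`: the least congruence on walks containing the removal of
backtracks and the contraction of the boundaries of 2-cells. -/
inductive Htpy {V : Type*} {G : SimpleGraph V} (Cell : ∀ v : V, G.Walk v v → Prop) :
    ∀ {u v : V}, G.Walk u v → G.Walk u v → Prop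
  | refl {u v : V} (p : G.Walk u v) : Htpy Cell p p
  | symm {u v : V} {p q : G.Walk u v} : Htpy Cell p q → Htpy Cell q p
  | trans {u v : V} {p q r : G.Walk u v} : Htpy Cell p q → Htpy Cell q r → Htpy Cell p r
  | append {u v w : V} {p p' : G.Walk u v} {q q' : G.Walk v w} :
      Htpy Cell p p' → Htpy Cell q q' → Htpy Cell (p.append q) (p'.append q')
  | back {u v : V} (h : G.Adj u v) : Htpy Cell (.cons h (.cons h.symm .nil)) .nil
  | cell {v : V} (p : G.Walk v v) : Cell v p → Htpy Cell p .nil

end N337.DW
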