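import Pool.Agent.N337.DW.PotMain

/-!
# The flip graph
-/

namespace N337.DW
open SimpleGraph

variable {m : ℕ}

theorem indep_symm {a b : Letter m} (h : Indep a b) : Indep b a := by
  rcases h with ⟨h1, h2⟩ | ⟨h1, h2⟩
  · exact Or.inl ⟨h1.symm, h2.symm⟩
  · exact Or.inr ⟨h1.symm, Ne.symm h2⟩

theorem not_indep_self (a : Letter m) : ¬ Indep a a := by
  rintro (⟨-, h2⟩ | ⟨h1, -⟩)
  · omega
  · exact h1 rfl

theorem indep_ne {a b : Letter m} (h : Indep a b) : a ≠ b := by
  rintro rfl
  exact not_indep_self a h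

theorem indep_nadj {a b : Letter m} (h : Indep a b) : ¬ adjc a b := by
  rintro ⟨h1, h2⟩
  rcases h with ⟨-, h3⟩ | ⟨h3, -⟩
  · omega
  · exact h3 h1

/-- projection to two letters -/
def proj (a b : Letter m) (w : List (Letter m)) : List (Letter m) :=
  w.filter (fun x => x = a ∨ x = b)

theorem proj_append (a b : Letter m) (u w : List (Letter m)) :
    proj a b (u ++ w) = proj a b u ++ proj a b w := by simp [proj]

theorem proj_commStep {u v : List (Letter m)} (h : CommStep u v) {a b : Letter m}
    (hab : ¬ Indep a b) : proj a b u = proj a b v := by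
  obtain ⟨p, q, x, y, hxy⟩ := h
  rw [proj_append, proj_append]
  congr 1
  have hyx := indep_symm hxy
  have hne := indep_ne hxy
  unfold proj
  by_cases h1 : x = a ∨ x = b
  · by_cases h2 : y = a ∨ y = b
    · exfalso
      rcases h1 with h1 | h1 <;> rcases h2 with h2 | h2 <;> subst h1 <;> subst h2
      · exact hne rfl
      · exact hab hxy
      · exact hab hyx
      · exact hne rfl
    · simp [List.filter_cons, h1, h2]
  · simp [List.filter_cons, h1]

theorem proj_of_eq {u v : Dbl m} (h : Vert.mk u = Vert.mk v) {a b : Letter m}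
    (hab : ¬ Indep a b) : proj a b u.1 = proj a b v.1 := by
  have h1 : Relation.EqvGen (fun x y : Dbl m => CommStep x.1 y.1) u v :=
    Quotient.exact (s := commSetoid m) h
  clear h
  induction h1 with
  | rel u v h => exact proj_commStep h hab
  | refl u => rfl
  | symm u v _ ih => exact ih.symm
  | trans u v w _ _ ih1 ih2 => exact ih1.trans ih2

theorem CoxStep.symm {c : Bool} {u v : List (Letter m)} (h : CoxStep c u v) : CoxStep c v u := by
  obtain ⟨p, q, i, j, h⟩ := h
  exact CoxStep.mk p q j i h.symm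

theorem MixStep.symm {u v : List (Letter m)} (h : MixStep u v) : MixStep v u := by
  obtain ⟨p, q, c, i⟩ := h
  have := MixStep.mk p q (!c) i
  rwa [Bool.not_not] at this

theorem CoxStep.ne {c : Bool} {u v : Dbl m} (h : CoxStep c u.1 v.1) : Vert.mk u ≠ Vert.mk v := by
  intro he
  obtain ⟨u, hu⟩ := u
  obtain ⟨v, hv⟩ := v
  dsimp only at h
  obtain ⟨p, q, i, j, hij⟩ := h
  have h1 := proj_of_eq he (not_indep_self (c, i))
  dsimp only at h1
  rw [proj_append, proj_append] at h1
  have h2 := List.append_cancel_left h1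
  have hne : j ≠ i := by rintro rfl; omega
  simp [proj, List.filter_cons, hne] at h2

theorem MixStep.ne {u v : Dbl m} (h : MixStep u.1 v.1) : Vert.mk u ≠ Vert.mk v := by
  intro he
  obtain ⟨u, hu⟩ := u
  obtain ⟨v, hv⟩ := v
  dsimp only at h
  obtain ⟨p, q, c, i⟩ := h
  have hd : ¬ Indep ((c, i) : Letter m) (!c, i) := by
    rintro (⟨h1, -⟩ | ⟨-, h2⟩)
    · simp at h1
    · exact h2 rfl
  have h1 := proj_of_eq he hd
  dsimp only at h1
  rw [proj_append, proj_append] at h1
  have h2 := List.append_cancel_left h1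
  simp [proj, List.filter_cons] at h2

/-- The flip graph: vertices are double wiring diagrams up to commutations, edges are flips
(Coxeter moves of either colour and mixed moves). -/
def flipGraph (m : ℕ) : SimpleGraph (Vert m) where
  Adj A B := MixAdj A B ∨ ∃ c, CoxAdj c A B
  symm := ⟨by
    rintro A B (⟨u, v, hu, hv, h⟩ | ⟨c, u, v, hu, hv, h⟩)
    · exact Or.inl ⟨v, u, hv, hu, h.symm⟩
    · exact Or.inr ⟨c, v, u, hv, hu, h.symm⟩⟩
  loopless := ⟨by
    rintro A (⟨u, v, hu, hv, h⟩ | ⟨c, u, v, hu, hv, h⟩)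
    · exact h.ne (hu.trans hv.symm)
    · exact h.ne (hu.trans hv.symm)⟩

/-- All edges of the closed walk `p` are Coxeter moves of one and the same colour. -/
def SingleType {A : Vert m} (p : (flipGraph m).Walk A A) : Prop :=
  ∃ c : Bool, ∀ d ∈ p.darts, CoxAdj c d.fst d.snd

/-- The closed walks along which 2-cells are attached: cycles of length 4, cycles of length 5 and
cycles of length 8 of single-wiring type. -/
def IsCell (A : Vert m) (p : (flipGraph m).Walk A A) : Prop :=
  p.IsCycle ∧ (p.length = 4 ∨ p.length = 5 ∨ (p.length = 8 ∧ SingleType p))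

end N337.DW
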