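import Pool.Agent.N337.DW.Defs

/-!
# Inversions; words as maximal chains of the weak order
-/

namespace N337.DW
open Equiv

variable {m : ℕ}

/-- set of inversions -/
def invs (π : Perm (Fin (m + 1))) : Finset (Fin (m + 1) × Fin (m + 1)) :=
  Finset.univ.filter (fun x => x.1 < x.2 ∧ π x.2 < π x.1)

/-- number of inversions -/
def inv (π : Perm (Fin (m + 1))) : ℕ := (invs π).card

theorem gen_lt (i : Fin m) (a b : Fin (m + 1)) :
    gen i a < gen i b ↔ (a < b ∧ ¬ (a = i.castSucc ∧ b = i.succ)) ∨
      (a = i.succ ∧ b = i.castSucc) := by
  unfold gen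
  simp only [Equiv.swap_apply_def, Fin.ext_iff, Fin.lt_def]
  have h1 : (i.castSucc : Fin (m+1)).val = i.val := rfl
  have h2 : (i.succ : Fin (m+1)).val = i.val + 1 := rfl
  split_ifs <;> simp_all <;> omega

theorem gen_castSucc (i : Fin m) : gen i i.castSucc = i.succ := by simp [gen]
theorem gen_succ (i : Fin m) : gen i i.succ = i.castSucc := by simp [gen]
theorem gen_gen (i : Fin m) (a : Fin (m + 1)) : gen i (gen i a) = a := by simp [gen]
theorem gen_mul_gen (i : Fin m) : gen i * gen i = 1 := by simp [gen]

theorem inv_mul_gen (π : Perm (Fin (m + 1))) (i : Fin m) (h : π i.castSucc < π i.succ) :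
    inv (π * gen i) = inv π + 1 := by
  classical
  have hnot : (i.succ, i.castSucc) ∉ invs π := by
    intro h1
    have h2 := (Finset.mem_filter.mp h1).2.1
    have h3 : (i.succ : Fin (m+1)).val < (i.castSucc : Fin (m+1)).val := h2
    simp at h3
  have e : (invs (π * gen i)).map
      ((Equiv.prodCongr (gen i) (gen i)).toEmbedding) = insert (i.succ, i.castSucc) (invs π) := by
    ext ⟨x, y⟩
    simp only [Finset.mem_map_equiv, invs, Finset.mem_filter, Finset.mem_univ, true_and,
      Finset.mem_insert, Prod.mk.injEq]
    have hs : (gen i).symm = gen i := by simp [gen]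
    simp only [Equiv.prodCongr_symm, Equiv.prodCongr_apply, Prod.map, hs, Perm.mul_apply, gen_gen]
    rw [gen_lt]
    constructor
    · rintro ⟨h1 | h1, h2⟩
      · right; exact ⟨h1.1, h2⟩
      · left; exact h1
    · rintro (⟨h1, h2⟩ | ⟨h1, h2⟩)
      · subst h1 h2
        exact ⟨Or.inr ⟨rfl, rfl⟩, h⟩
      · refine ⟨Or.inl ⟨h1, ?_⟩, h2⟩
        rintro ⟨h3, h4⟩
        subst h3 h4
        exact absurd h (not_lt.mpr h2.le)
  have := congrArg Finset.card e
  rw [Finset.card_map, Finset.card_insert_of_notMem hnot] at this
  exact this

theorem inv_mul_gen' (π : Perm (Fin (m + 1))) (i : Fin m) (h : π i.succ < π i.castSucc) :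
    inv (π * gen i) + 1 = inv π := by
  have h1 := inv_mul_gen (π * gen i) i (by
    simp only [Perm.mul_apply, gen_castSucc, gen_succ]
    exact h)
  rw [mul_assoc, gen_mul_gen, mul_one] at h1
  exact h1.symm

theorem inv_one : inv (1 : Perm (Fin (m + 1))) = 0 := by
  simp only [inv, invs, Finset.card_eq_zero, Finset.filter_eq_empty_iff]
  rintro ⟨x, y⟩ _ ⟨h1, h2⟩
  simp at h1 h2
  omega

theorem inv_rev : inv (Fin.revPerm : Perm (Fin (m + 1))) = (m + 1).choose 2 := by
  have e : invs (Fin.revPerm : Perm (Fin (m + 1))) =
      Finset.univ.filter (fun x : Fin (m + 1) × Fin (m + 1) => x.1 < x.2) := by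
    ext ⟨x, y⟩
    simp [invs]
  rw [inv, e]
  have h1 : (Finset.univ.filter (fun x : Fin (m + 1) × Fin (m + 1) => x.1 < x.2)).card =
      ∑ y : Fin (m + 1), (Finset.univ.filter (fun x : Fin (m + 1) => x < y)).card := by
    rw [Finset.card_eq_sum_ones, Finset.sum_filter, ← Finset.univ_product_univ,
      Finset.sum_product_right]
    refine Finset.sum_congr rfl fun y _ => ?_
    rw [Finset.card_eq_sum_ones, Finset.sum_filter]
  rw [h1]
  have h2 : ∀ y : Fin (m + 1), (Finset.univ.filter (fun x : Fin (m + 1) => x < y)).card = y.val := by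
    intro y
    have : Finset.univ.filter (fun x : Fin (m + 1) => x < y) = Finset.Iio y := by
      ext x; simp
    rw [this]; simp
  simp only [h2]
  rw [Fin.sum_univ_eq_sum_range (fun i => i), Finset.sum_range_id, Nat.choose_two_right]

/-- pairs of arrangements -/
abbrev State (m : ℕ) := Bool → Perm (Fin (m + 1))

def asc (σ : State m) (a : Letter m) : Prop := σ a.1 a.2.castSucc < σ a.1 a.2.succ
def act (σ : State m) (a : Letter m) : State m := Function.update σ a.1 (σ a.1 * gen a.2)

def top : State m := fun _ => Fin.revPerm

def run (σ : State m) (w : List (Letter m)) : State m := w.foldl act σ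

def AscRun : State m → List (Letter m) → Prop
  | _, [] => True
  | σ, a :: f => asc σ a ∧ AscRun (act σ a) f

def Good (σ : State m) (w : List (Letter m)) : Prop := AscRun σ w ∧ run σ w = top

@[simp] theorem run_nil (σ : State m) : run σ [] = σ := rfl
@[simp] theorem run_cons (σ : State m) (a : Letter m) (w : List (Letter m)) :
    run σ (a :: w) = run (act σ a) w := rfl
theorem run_append (σ : State m) (u w : List (Letter m)) :
    run σ (u ++ w) = run (run σ u) w := by simp [run]
@[simp] theorem ascRun_nil (σ : State m) : AscRun σ [] := trivial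
@[simp] theorem ascRun_cons (σ : State m) (a : Letter m) (w : List (Letter m)) :
    AscRun σ (a :: w) ↔ asc σ a ∧ AscRun (act σ a) w := Iff.rfl
theorem ascRun_append (σ : State m) (u w : List (Letter m)) :
    AscRun σ (u ++ w) ↔ AscRun σ u ∧ AscRun (run σ u) w := by
  induction u generalizing σ with
  | nil => simp
  | cons a u ih => simp [ih, and_assoc]

theorem good_append (σ : State m) (u w : List (Letter m)) :
    Good σ (u ++ w) ↔ AscRun σ u ∧ Good (run σ u) w := by
  simp only [Good, ascRun_append, run_append, and_assoc]

theorem good_cons (σ : State m) (a : Letter m) (w : List (Letter m)) :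
    Good σ (a :: w) ↔ asc σ a ∧ Good (act σ a) w := by
  simp only [Good, ascRun_cons, run_cons, and_assoc]

theorem good_nil (σ : State m) : Good σ [] ↔ σ = top := by
  simp [Good]

/-! ### the colour projections -/

theorem colour_nil (c : Bool) : colour c ([] : List (Letter m)) = [] := rfl
theorem colour_cons (c : Bool) (a : Letter m) (w : List (Letter m)) :
    colour c (a :: w) = if a.1 = c then a.2 :: colour c w else colour c w := by
  unfold colour
  by_cases h : a.1 = c <;> simp [h]

theorem run_apply (σ : State m) (w : List (Letter m)) (c : Bool) :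
    run σ w c = σ c * ((colour c w).map gen).prod := by
  induction w generalizing σ with
  | nil => simp [colour_nil]
  | cons a w ih =>
    rw [run_cons, ih, colour_cons]
    by_cases h : a.1 = c
    · subst h
      simp [act, mul_assoc]
    · rw [if_neg h, act, Function.update_of_ne (Ne.symm h)]

theorem inv_act_of_asc (σ : State m) (a : Letter m) (h : asc σ a) (c : Bool) :
    inv (act σ a c) = inv (σ c) + (if a.1 = c then 1 else 0) := by
  by_cases hc : a.1 = c
  · subst hc
    simp [act, inv_mul_gen _ _ h]
  · rw [if_neg hc, act, Function.update_of_ne (Ne.symm hc), add_zero]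

theorem inv_act_le (σ : State m) (a : Letter m) (c : Bool) :
    inv (act σ a c) ≤ inv (σ c) + (if a.1 = c then 1 else 0) := by
  by_cases h : asc σ a
  · exact (inv_act_of_asc σ a h c).le
  · by_cases hc : a.1 = c
    · subst hc
      have h1 : σ a.1 a.2.succ < σ a.1 a.2.castSucc := by
        refine lt_of_le_of_ne (not_lt.mp h) ?_
        intro he
        have := (σ a.1).injective he
        simp [Fin.ext_iff] at this
      have := inv_mul_gen' _ _ h1
      simp only [act, Function.update_self, if_true]
      omega
    · rw [if_neg hc, act, Function.update_of_ne (Ne.symm hc), add_zero]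

theorem length_colour_cons (c : Bool) (a : Letter m) (w : List (Letter m)) :
    (colour c (a :: w)).length = (if a.1 = c then 1 else 0) + (colour c w).length := by
  rw [colour_cons]
  split_ifs <;> simp [add_comm]

theorem inv_run_of_ascRun (σ : State m) (w : List (Letter m)) (h : AscRun σ w) (c : Bool) :
    inv (run σ w c) = inv (σ c) + (colour c w).length := by
  induction w generalizing σ with
  | nil => simp [colour_nil]
  | cons a w ih =>
    rw [run_cons, ih _ h.2, inv_act_of_asc _ _ h.1, length_colour_cons]
    omega

theorem inv_run_le (σ : State m) (w : List (Letter m)) (c : Bool) :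
    inv (run σ w c) ≤ inv (σ c) + (colour c w).length := by
  induction w generalizing σ with
  | nil => simp [colour_nil]
  | cons a w ih =>
    rw [run_cons, length_colour_cons]
    have h1 := ih (act σ a)
    have h2 := inv_act_le σ a c
    omega

theorem ascRun_of_inv (σ : State m) (w : List (Letter m))
    (h : ∀ c, inv (run σ w c) = inv (σ c) + (colour c w).length) : AscRun σ w := by
  induction w generalizing σ with
  | nil => trivial
  | cons a w ih =>
    by_cases ha : asc σ a
    · refine ⟨ha, ih _ fun c => ?_⟩
      have h1 := h c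
      rw [run_cons, length_colour_cons] at h1
      rw [inv_act_of_asc _ _ ha]
      omega
    · exfalso
      have h1 := h a.1
      rw [run_cons, length_colour_cons, if_pos rfl] at h1
      have h2 := inv_run_le (act σ a) w a.1
      have h3 : inv (act σ a a.1) + 1 = inv (σ a.1) := by
        have h1 : σ a.1 a.2.succ < σ a.1 a.2.castSucc := by
          refine lt_of_le_of_ne (not_lt.mp ha) ?_
          intro he
          have := (σ a.1).injective he
          simp [Fin.ext_iff] at this
        have := inv_mul_gen' _ _ h1
        simpa [act] using this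
      omega

theorem isDouble_iff (w : List (Letter m)) : IsDouble w ↔ Good (fun _ => 1) w := by
  constructor
  · intro h
    have h1 : run (fun _ => 1) w = top := by
      funext c
      rw [run_apply, one_mul]
      exact (h c).1
    refine ⟨?_, h1⟩
    apply ascRun_of_inv
    intro c
    rw [h1]
    show inv (Fin.revPerm : Perm (Fin (m + 1))) = _
    rw [inv_rev, inv_one, (h c).2, zero_add]
  · rintro ⟨h1, h2⟩ c
    have h3 := inv_run_of_ascRun _ _ h1 c
    rw [h2] at h3
    change inv (Fin.revPerm : Perm (Fin (m + 1))) = _ at h3
    rw [inv_rev, inv_one, zero_add] at h3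
    refine ⟨?_, h3.symm⟩
    have h4 := congrFun h2 c
    rw [run_apply, one_mul] at h4
    exact h4

/-! ### completions -/

theorem eq_rev_of_desc (π : Perm (Fin (m + 1))) (h : ∀ i : Fin m, π i.succ < π i.castSucc) :
    π = Fin.revPerm := by
  have h1 : StrictAnti π := Fin.strictAnti_iff_succ_lt.mpr h
  have h2 : StrictMono (π ∘ Fin.rev) := h1.comp (fun a b hab => by simpa using hab)
  have h3 : (π ∘ Fin.rev) = id := by
    refine (StrictMono.range_inj h2 strictMono_id).mp ?_
    rw [Set.range_id, Set.range_eq_univ]
    exact π.surjective.comp Fin.rev_surjective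
  ext1 x
  have := congrFun h3 (Fin.rev x)
  simpa using this

theorem inv_le (π : Perm (Fin (m + 1))) : inv π ≤ (m + 1) * (m + 1) := by
  have := Finset.card_le_univ (invs π)
  simpa [inv] using this

theorem exists_good (σ : State m) : ∃ f, Good σ f := by
  generalize hk : 2 * ((m + 1) * (m + 1)) - inv (σ false) - inv (σ true) = k
  induction k using Nat.strong_induction_on generalizing σ with
  | _ k ih =>
    by_cases h : ∃ a, asc σ a
    · obtain ⟨a, ha⟩ := h
      have h1 := inv_act_of_asc σ a ha
      have h2 := h1 false
      have h3 := h1 true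
      have h4 := inv_le (act σ a false)
      have h5 := inv_le (act σ a true)
      obtain ⟨f, hf⟩ := ih (2 * ((m + 1) * (m + 1)) - inv (act σ a false) - inv (act σ a true))
        (by
          rcases hb : a.1 with _ | _ <;> simp [hb] at h2 h3 <;> omega) (act σ a) rfl
      exact ⟨a :: f, (good_cons _ _ _).mpr ⟨ha, hf⟩⟩
    · refine ⟨[], (good_nil _).mpr ?_⟩
      funext c
      apply eq_rev_of_desc
      intro i
      have h1 : ¬ asc σ (c, i) := fun h2 => h ⟨_, h2⟩
      refine lt_of_le_of_ne (not_lt.mp h1) ?_
      intro he
      have := (σ c).injective he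
      simp [Fin.ext_iff] at this

end N337.DW
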