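import Pool.Agent.N337.DW.Inv

/-!
# Braid moves, as moves `alt a b ↔ alt b a`
-/

namespace N337.DW
open Equiv

variable {m : ℕ}

/-- same colour and neighbouring indices -/
def adjc (a b : Letter m) : Prop := a.1 = b.1 ∧ (a.2.val + 1 = b.2.val ∨ b.2.val + 1 = a.2.val)

instance (a b : Letter m) : Decidable (adjc a b) := by unfold adjc; infer_instance

theorem adjc_comm (a b : Letter m) : adjc a b ↔ adjc b a := by
  unfold adjc
  constructor <;> rintro ⟨h1, h2⟩ <;> exact ⟨h1.symm, h2.symm⟩

def tl (a b : Letter m) : List (Letter m) := if adjc a b then [b, a] else [b]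
def alt (a b : Letter m) : List (Letter m) := a :: tl a b

theorem alt_adj {a b : Letter m} (h : adjc a b) : alt a b = [a, b, a] := by simp [alt, tl, h]
theorem alt_nadj {a b : Letter m} (h : ¬ adjc a b) : alt a b = [a, b] := by simp [alt, tl, h]

theorem gen_apply_of_ne {i : Fin m} {x : Fin (m + 1)} (h1 : x ≠ i.castSucc) (h2 : x ≠ i.succ) :
    gen i x = x := Equiv.swap_apply_of_ne_of_ne h1 h2

theorem gen_comm {i j : Fin m} (h : i.val + 2 ≤ j.val ∨ j.val + 2 ≤ i.val) :
    gen i * gen j = gen j * gen i := by
  have hd : Equiv.Perm.Disjoint (gen i) (gen j) := by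
    unfold gen
    apply Equiv.Perm.disjoint_swap_swap
    simp only [List.nodup_cons, List.mem_cons, List.not_mem_nil, or_false, not_or, Fin.ext_iff,
      Fin.val_castSucc, Fin.val_succ, List.nodup_nil, and_true, not_false_eq_true]
    omega
  exact hd.commute

theorem gen_braid {i j : Fin m} (h : i.val + 1 = j.val) :
    gen i * gen j * gen i = gen j * gen i * gen j := by
  have hij : i.succ = j.castSucc := by
    apply Fin.ext; simp [h]
  unfold gen
  rw [hij]
  have h1 : i.castSucc ≠ j.castSucc := by
    intro h2; have := congrArg Fin.val h2; simp at this; omega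
  have h2 : i.castSucc ≠ j.succ := by
    intro h2; have := congrArg Fin.val h2; simp at this; omega
  have h3 : j.castSucc ≠ j.succ := by
    intro h2; have := congrArg Fin.val h2; simp at this
  have e1 := Equiv.swap_mul_swap_mul_swap h1 h2
  have e2 := Equiv.swap_mul_swap_mul_swap h3.symm h2.symm
  rw [e1]
  rw [Equiv.swap_comm j.castSucc i.castSucc, Equiv.swap_comm j.succ j.castSucc] at e2
  rw [e2, Equiv.swap_comm]

theorem act_apply_self (σ : State m) (a : Letter m) : act σ a a.1 = σ a.1 * gen a.2 := by
  simp [act]
theorem act_apply_ne (σ : State m) (a : Letter m) {c : Bool} (h : a.1 ≠ c) : act σ a c = σ c := by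
  rw [act, Function.update_of_ne h.symm]

theorem asc_congr {σ τ : State m} {a : Letter m} (h : σ a.1 = τ a.1) : asc σ a ↔ asc τ a := by
  unfold asc; rw [h]

theorem far_of {a b : Letter m} (h : a ≠ b) (h1 : ¬ adjc a b) (h2 : a.1 = b.1) :
    a.2.val + 2 ≤ b.2.val ∨ b.2.val + 2 ≤ a.2.val := by
  have h3 : a.2.val ≠ b.2.val := by
    intro h4; exact h (Prod.ext h2 (Fin.ext h4))
  have h4 : ¬ (a.2.val + 1 = b.2.val ∨ b.2.val + 1 = a.2.val) := fun h5 => h1 ⟨h2, h5⟩
  omega

theorem asc_act_of_nadj {σ : State m} {a b : Letter m} (h : a ≠ b) (h1 : ¬ adjc a b) :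
    asc (act σ a) b ↔ asc σ b := by
  by_cases h2 : a.1 = b.1
  · have hf := far_of h h1 h2
    unfold asc
    have e : act σ a b.1 = σ b.1 * gen a.2 := by rw [← h2, act_apply_self]
    rw [e, Perm.mul_apply, Perm.mul_apply, gen_apply_of_ne, gen_apply_of_ne]
    all_goals
      intro h3
      have := congrArg Fin.val h3
      simp at this
      omega
  · exact asc_congr (act_apply_ne σ a h2)

theorem act_comm {σ : State m} {a b : Letter m} (h : a ≠ b) (h1 : ¬ adjc a b) :
    act (act σ a) b = act (act σ b) a := by
  by_cases h2 : a.1 = b.1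
  · have hf := far_of h h1 h2
    funext c
    by_cases hc : a.1 = c
    · subst hc
      have e1 : act (act σ a) b a.1 = act σ a a.1 * gen b.2 := by rw [h2, act_apply_self]
      have e2 : act (act σ b) a a.1 = act σ b a.1 * gen a.2 := act_apply_self _ _
      have e3 : act σ b a.1 = σ a.1 * gen b.2 := by rw [h2, act_apply_self]
      rw [e1, e2, e3, act_apply_self, mul_assoc, mul_assoc, gen_comm hf]
    · have hc' : b.1 ≠ c := by rwa [← h2]
      rw [act_apply_ne _ _ hc', act_apply_ne _ _ hc, act_apply_ne _ _ hc, act_apply_ne _ _ hc']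
  · unfold act
    rw [Function.update_of_ne (Ne.symm h2), Function.update_of_ne h2, Function.update_comm h2]

theorem asc_adj_aux (π : Perm (Fin (m + 1))) {i j : Fin m}
    (h : i.val + 1 = j.val ∨ j.val + 1 = i.val) :
    (π i.castSucc < π i.succ ∧ (π * gen i) j.castSucc < (π * gen i) j.succ ∧
      (π * gen i * gen j) i.castSucc < (π * gen i * gen j) i.succ) ↔
    (π i.castSucc < π i.succ ∧ π j.castSucc < π j.succ) := by
  rcases h with h | h
  · have hij : i.succ = j.castSucc := by
      apply Fin.ext; simp [h]
    have e1 : gen j i.castSucc = i.castSucc := by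
      apply gen_apply_of_ne
      · intro h2; have := congrArg Fin.val h2; simp at this; omega
      · intro h2; have := congrArg Fin.val h2; simp at this; omega
    have e2 : gen i j.succ = j.succ := by
      apply gen_apply_of_ne
      · intro h2; have := congrArg Fin.val h2; simp at this; omega
      · intro h2; have := congrArg Fin.val h2; simp at this; omega
    simp only [Perm.mul_apply, e1, e2, hij, gen_castSucc]
    have e3 : gen i j.castSucc = i.castSucc := by rw [← hij, gen_succ]
    have e4 : gen i i.castSucc = j.castSucc := by rw [gen_castSucc, hij]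
    simp only [e2, e3, e4]
    constructor
    · rintro ⟨h1, h2, h3⟩; exact ⟨h1, h3⟩
    · rintro ⟨h1, h2⟩; exact ⟨h1, h1.trans h2, h2⟩
  · have hij : j.succ = i.castSucc := by
      apply Fin.ext; simp [h]
    have e1 : gen i j.castSucc = j.castSucc := by
      apply gen_apply_of_ne
      · intro h2; have := congrArg Fin.val h2; simp at this; omega
      · intro h2; have := congrArg Fin.val h2; simp at this; omega
    have e2 : gen j i.succ = i.succ := by
      apply gen_apply_of_ne
      · intro h2; have := congrArg Fin.val h2; simp at this; omega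
      · intro h2; have := congrArg Fin.val h2; simp at this; omega
    have e3 : gen j i.castSucc = j.castSucc := by rw [← hij, gen_succ]
    simp only [Perm.mul_apply, e1, e2, e3, hij, gen_castSucc, gen_succ]
    constructor
    · rintro ⟨h1, h2, h3⟩; exact ⟨h1, h3⟩
    · rintro ⟨h1, h2⟩; exact ⟨h1, h2.trans h1, h2⟩

theorem alt_asc (σ : State m) {a b : Letter m} (h : a ≠ b) :
    AscRun σ (alt a b) ↔ asc σ a ∧ asc σ b := by
  by_cases h1 : adjc a b
  · rw [alt_adj h1]
    obtain ⟨c, i⟩ := a
    obtain ⟨c', j⟩ := b
    obtain ⟨hc, h2⟩ := h1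
    dsimp only at hc h2
    subst hc
    simp only [ascRun_cons, ascRun_nil, and_true]
    unfold asc
    simp only [act, Function.update_self, Function.update_idem]
    exact asc_adj_aux (σ c) h2
  · rw [alt_nadj h1]
    simp only [ascRun_cons, ascRun_nil, and_true, asc_act_of_nadj h h1]

theorem alt_run (σ : State m) {a b : Letter m} (h : a ≠ b) :
    run σ (alt a b) = run σ (alt b a) := by
  by_cases h1 : adjc a b
  · rw [alt_adj h1, alt_adj ((adjc_comm _ _).mp h1)]
    obtain ⟨c, i⟩ := a
    obtain ⟨c', j⟩ := b
    obtain ⟨hc, h2⟩ := h1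
    dsimp only at hc h2
    subst hc
    simp only [run_cons, run_nil, act, Function.update_self, Function.update_idem]
    congr 1
    have key : gen i * gen j * gen i = gen j * gen i * gen j := by
      rcases h2 with h2 | h2
      · exact gen_braid h2
      · exact (gen_braid h2).symm
    simp only [mul_assoc] at key ⊢
    rw [key]
  · have h1' : ¬ adjc b a := fun h2 => h1 ((adjc_comm _ _).mp h2)
    rw [alt_nadj h1, alt_nadj h1']
    simp only [run_cons, run_nil]
    exact act_comm h h1

theorem good_alt (σ : State m) {a b : Letter m} (h : a ≠ b) (f : List (Letter m)) :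
    Good σ (alt a b ++ f) ↔ Good σ (alt b a ++ f) := by
  rw [good_append, good_append, alt_asc σ h, alt_asc σ h.symm, alt_run σ h, and_comm (a := asc σ a)]

/-- the word moves -/
inductive Step : List (Letter m) → List (Letter m) → Prop
  | mk (p q : List (Letter m)) (a b : Letter m) (h : a ≠ b) :
      Step (p ++ alt a b ++ q) (p ++ alt b a ++ q)

theorem Step.good {u v : List (Letter m)} (h : Step u v) (σ : State m) : Good σ u ↔ Good σ v := by
  obtain ⟨p, q, a, b, hab⟩ := h
  rw [List.append_assoc, List.append_assoc, good_append, good_append σ p (alt b a ++ q),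
    good_alt _ hab]

theorem Step.symm {u v : List (Letter m)} (h : Step u v) : Step v u := by
  obtain ⟨p, q, a, b, hab⟩ := h
  exact Step.mk p q b a hab.symm

theorem Step.cons {u v : List (Letter m)} (h : Step u v) (s : Letter m) :
    Step (s :: u) (s :: v) := by
  obtain ⟨p, q, a, b, hab⟩ := h
  exact Step.mk (s :: p) q a b hab

theorem Step.swap (p q : List (Letter m)) {a b : Letter m} (h : a ≠ b) (h1 : ¬ adjc a b) :
    Step (p ++ a :: b :: q) (p ++ b :: a :: q) := by
  have := Step.mk p q a b h
  rw [alt_nadj h1, alt_nadj (fun h2 => h1 ((adjc_comm _ _).mp h2))] at this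
  simpa using this

theorem ne_of_adjc {a b : Letter m} (h : adjc a b) : a ≠ b := by
  rintro rfl
  have := h.2
  omega

theorem Step.braid (p q : List (Letter m)) {a b : Letter m} (h : adjc a b) :
    Step (p ++ a :: b :: a :: q) (p ++ b :: a :: b :: q) := by
  have := Step.mk p q a b (ne_of_adjc h)
  rw [alt_adj h, alt_adj ((adjc_comm _ _).mp h)] at this
  simpa using this

/-- rank of a state -/
def rk (σ : State m) : ℕ := 2 * ((m + 1) * (m + 1)) - inv (σ false) - inv (σ true)

theorem rk_act {σ : State m} {a : Letter m} (ha : asc σ a) : rk (act σ a) < rk σ := by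
  have h1 := inv_act_of_asc σ a ha
  have h2 := h1 false
  have h3 := h1 true
  have h4 := inv_le (act σ a false)
  have h5 := inv_le (act σ a true)
  unfold rk
  rcases hb : a.1 with _ | _ <;> simp [hb] at h2 h3 <;> omega

theorem not_asc_top (a : Letter m) : ¬ asc top a := by
  intro h1
  simp [asc, top, Fin.lt_def] at h1
  omega

/-- connectedness -/
theorem conn (σ : State m) (f g : List (Letter m)) (hf : Good σ f) (hg : Good σ g) :
    Relation.EqvGen (fun u v => Good σ u ∧ Step u v) f g := by
  generalize hk : rk σ = k
  induction k using Nat.strong_induction_on generalizing σ f g with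
  | _ k ih =>
    subst hk
    have key : ∀ (a : Letter m) (f g : List (Letter m)), Good σ (a :: f) → Good σ (a :: g) →
        Relation.EqvGen (fun u v => Good σ u ∧ Step u v) (a :: f) (a :: g) := by
      intro a f g h1 h2
      rw [good_cons] at h1 h2
      have h3 := ih _ (rk_act h1.1) (act σ a) f g h1.2 h2.2 rfl
      have ha := h1.1
      clear h1 h2
      induction h3 with
      | rel u v h => exact Relation.EqvGen.rel _ _ ⟨(good_cons _ _ _).mpr ⟨ha, h.1⟩, h.2.cons a⟩
      | refl u => exact Relation.EqvGen.refl _
      | symm u v _ ih => exact Relation.EqvGen.symm _ _ ih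
      | trans u v w _ _ ih1 ih2 => exact Relation.EqvGen.trans _ _ _ ih1 ih2
    cases f with
    | nil =>
      rw [good_nil] at hf
      cases g with
      | nil => exact Relation.EqvGen.refl _
      | cons b g => exact absurd (hf ▸ ((good_cons _ _ _).mp hg).1) (not_asc_top b)
    | cons a f =>
      cases g with
      | nil =>
        rw [good_nil] at hg
        exact absurd (hg ▸ ((good_cons _ _ _).mp hf).1) (not_asc_top a)
      | cons b g =>
        by_cases hab : a = b
        · subst hab
          exact key a f g hf hg
        · have ha : asc σ a := ((good_cons _ _ _).mp hf).1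
          have hb : asc σ b := ((good_cons _ _ _).mp hg).1
          obtain ⟨h, hh⟩ := exists_good (run σ (alt a b))
          have h1 : Good σ (alt a b ++ h) :=
            (good_append _ _ _).mpr ⟨(alt_asc σ hab).mpr ⟨ha, hb⟩, hh⟩
          have h2 : Good σ (alt b a ++ h) := (good_alt σ hab h).mp h1
          have e1 : Relation.EqvGen (fun u v => Good σ u ∧ Step u v) (a :: f) (alt a b ++ h) :=
            key a f _ hf h1
          have e2 : Relation.EqvGen (fun u v => Good σ u ∧ Step u v) (alt a b ++ h)
              (alt b a ++ h) := Relation.EqvGen.rel _ _ ⟨h1, Step.mk [] h a b hab⟩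
          have e3 : Relation.EqvGen (fun u v => Good σ u ∧ Step u v) (alt b a ++ h) (b :: g) :=
            key b _ g h2 hg
          exact (e1.trans _ _ _ e2).trans _ _ _ e3

end N337.DW
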