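import Pool.Agent.N337.DW.Rel

/-!
# Simple connectivity
-/

namespace N337.DW
open SimpleGraph

variable {m : ℕ}

theorem Step.cases {u v : List (Letter m)} (h : Step u v) :
    CommStep u v ∨ MixStep u v ∨ ∃ c, CoxStep c u v := by
  obtain ⟨p, q, a, b, hab⟩ := h
  by_cases h1 : adjc a b
  · right; right
    refine ⟨a.1, ?_⟩
    rw [alt_adj h1, alt_adj ((adjc_comm _ _).mp h1)]
    obtain ⟨c, i⟩ := a
    obtain ⟨c', j⟩ := b
    obtain ⟨hc, h3⟩ := h1
    dsimp only at hc h3
    subst hc
    have := CoxStep.mk (c := c) p q i j h3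
    simpa using this
  · rw [alt_nadj h1, alt_nadj (fun h2 => h1 ((adjc_comm _ _).mp h2))]
    by_cases h2 : Indep a b
    · left
      have := CommStep.mk p q a b h2
      simpa using this
    · right; left
      obtain ⟨h3, h4⟩ := dep_cases hab h1 h2
      obtain ⟨c, i⟩ := a
      obtain ⟨c', j⟩ := b
      dsimp only at h3 h4
      subst h4
      have hc : c' = !c := by cases c <;> cases c' <;> simp_all
      subst hc
      have := MixStep.mk p q c i
      simpa using this

theorem Step.of_mix {u v : List (Letter m)} (h : MixStep u v) : Step u v := by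
  obtain ⟨p, q, c, i⟩ := h
  refine Step.swap p q ?_ ?_
  · intro h; have := congrArg Prod.fst h; simp at this
  · rintro ⟨h, -⟩; simp at h

theorem Step.of_cox {c : Bool} {u v : List (Letter m)} (h : CoxStep c u v) : Step u v := by
  obtain ⟨p, q, i, j, h⟩ := h
  exact Step.braid p q ⟨rfl, h⟩

theorem reachable_of (u v : List (Letter m)) (h : Relation.EqvGen
    (fun u v => Good (fun _ => 1) u ∧ Step u v) u v) (hu : IsDouble u) (hv : IsDouble v) :
    (flipGraph m).Reachable (Vert.mk ⟨u, hu⟩) (Vert.mk ⟨v, hv⟩) := by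
  have key : ∀ u v : List (Letter m), Relation.EqvGen
      (fun u v => Good (fun _ => 1) u ∧ Step u v) u v →
      (IsDouble u ↔ IsDouble v) ∧ ∀ A B, cls u = some A → cls v = some B →
        (flipGraph m).Reachable A B := by
    intro u v h
    induction h with
    | rel u v h =>
      have hu : IsDouble u := (isDouble_iff u).mpr h.1
      have hv : IsDouble v := h.2.dbl.mp hu
      refine ⟨h.2.dbl, ?_⟩
      intro A B hA hB
      rcases h.2.cases with h1 | h1 | ⟨c, h1⟩
      · have := cls_comm h1
        rw [hA, hB] at this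
        rw [Option.some.inj this]
      · rw [cls_of hu] at hA
        rw [cls_of hv] at hB
        exact Adj.reachable (Or.inl ⟨_, _, Option.some.inj hA, Option.some.inj hB, h1⟩)
      · rw [cls_of hu] at hA
        rw [cls_of hv] at hB
        exact Adj.reachable (Or.inr ⟨c, _, _, Option.some.inj hA, Option.some.inj hB, h1⟩)
    | refl u =>
      refine ⟨Iff.rfl, ?_⟩
      intro A B hA hB
      rw [hA] at hB
      rw [Option.some.inj hB]
    | symm u v _ ih =>
      exact ⟨ih.1.symm, fun A B hA hB => (ih.2 B A hB hA).symm⟩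
    | trans u v w _ _ ih1 ih2 =>
      refine ⟨ih1.1.trans ih2.1, ?_⟩
      intro A B hA hB
      have hu : IsDouble u := by
        by_contra hn; simp [cls, hn] at hA
      have hv : IsDouble v := ih1.1.mp hu
      exact (ih1.2 A _ hA (cls_of hv)).trans (ih2.2 _ B (cls_of hv) hB)
  exact (key u v h).2 _ _ (cls_of hu) (cls_of hv)

theorem connected (m : ℕ) : (flipGraph m).Connected := by
  have hne : Nonempty (Vert m) := by
    obtain ⟨f, hf⟩ := exists_good (fun _ => 1 : State m)
    exact ⟨Vert.mk ⟨f, (isDouble_iff f).mpr hf⟩⟩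
  refine ⟨?_⟩
  intro A B
  induction A using Quotient.ind with
  | _ u =>
  induction B using Quotient.ind with
  | _ v =>
  exact reachable_of u.1 v.1 (conn _ _ _ ((isDouble_iff _).mp u.2) ((isDouble_iff _).mp v.2))
    u.2 v.2

theorem vpot {H : Type} [Group H] {c0 : Vert m → Vert m → H} (hv : VCoc c0) :
    ∃ φ : Vert m → H, ∀ A B, (flipGraph m).Adj A B → c0 A B = (φ A)⁻¹ * φ B := by
  obtain ⟨φ, hφ⟩ := pot (coc_cw hv) init [] trivial rfl
  have hcomm : ∀ u v : Dbl m, Vert.mk u = Vert.mk v → φ u.1 = φ v.1 := by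
    intro u v h
    have h1 : Relation.EqvGen (fun x y : Dbl m => CommStep x.1 y.1) u v :=
      Quotient.exact (s := commSetoid m) h
    clear h
    induction h1 with
    | rel u v h =>
      have h1 := hφ u.1 v.1 ((isDouble_iff _).mp u.2) (Step.of_comm h)
      simp only [List.nil_append] at h1
      have h2 : cw c0 u.1 v.1 = 1 := by
        unfold cw
        rw [cls_comm h]
        exact hv.c1_self _
      rw [h2] at h1
      exact (inv_mul_eq_one.mp h1.symm)
    | refl u => rfl
    | symm u v _ ih => exact ih.symm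
    | trans u v w _ _ ih1 ih2 => exact ih1.trans ih2
  have hout : ∀ A : Vert m, ∃ u : Dbl m, Vert.mk u = A := fun A => Quotient.exists_rep A
  choose r hr using hout
  refine ⟨fun A => φ (r A).1, ?_⟩
  intro A B hAB
  have main : ∀ u v : Dbl m, Vert.mk u = A → Vert.mk v = B → Step u.1 v.1 →
      c0 A B = (φ (r A).1)⁻¹ * φ (r B).1 := by
    intro u v hu hv' hs
    have h1 := hφ u.1 v.1 ((isDouble_iff _).mp u.2) hs
    simp only [List.nil_append] at h1
    have h2 : cw c0 u.1 v.1 = c0 A B := by
      unfold cw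
      rw [cls_of u.2, cls_of v.2, c1_some, ← hu, ← hv']
      rfl
    rw [h2, hcomm u (r A) (hu.trans (hr A).symm), hcomm v (r B) (hv'.trans (hr B).symm)] at h1
    exact h1
  rcases hAB with ⟨u, v, hu, hv', h⟩ | ⟨c, u, v, hu, hv', h⟩
  · exact main u v hu hv' (Step.of_mix h)
  · exact main u v hu hv' (Step.of_cox h)

/-- Every closed walk in the flip graph is null-homotopic. -/
theorem null_homotopic (m : ℕ) (A : Vert m) (p : (flipGraph m).Walk A A) :
    Htpy IsCell p Walk.nil :=
  htpy_of_cocycle (connected m) (fun _ _ c h1 h2 h3 => vpot (c0 := c) ⟨h1, h2, h3⟩) A p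

end N337.DW
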