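import Pool.Agent.N337.DW.Loc

/-!
# Every word cocycle satisfying the rank two and rank three relations is a coboundary
-/

namespace N337.DW
open Equiv

variable {m : ℕ}

/-- the initial state -/
def init : State m := fun _ => 1

/-- a cocycle on words, trivial around all loops of rank at most three -/
structure Coc {H : Type*} [Group H] (c : List (Letter m) → List (Letter m) → H) : Prop where
  A : ∀ u v, c u v * c v u = 1
  B : ∀ (p h h' : List (Letter m)) (a b : Letter m), a ≠ b → Step h h' →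
      Good init (p ++ (alt a b ++ h)) →
      c (p ++ (alt a b ++ h)) (p ++ (alt b a ++ h)) *
        c (p ++ (alt b a ++ h)) (p ++ (alt b a ++ h')) =
      c (p ++ (alt a b ++ h)) (p ++ (alt a b ++ h')) *
        c (p ++ (alt a b ++ h')) (p ++ (alt b a ++ h'))
  T1 : ∀ (p h : List (Letter m)) (a b d : Letter m), a ≠ b → a ≠ d → b ≠ d →
      ¬ adjc a b → ¬ adjc a d → ¬ adjc b d → Good init (p ++ a :: b :: d :: h) →
      c (p ++ a :: b :: d :: h) (p ++ b :: a :: d :: h) *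
      c (p ++ b :: a :: d :: h) (p ++ b :: d :: a :: h) *
      c (p ++ b :: d :: a :: h) (p ++ d :: b :: a :: h) *
      c (p ++ d :: b :: a :: h) (p ++ d :: a :: b :: h) *
      c (p ++ d :: a :: b :: h) (p ++ a :: d :: b :: h) *
      c (p ++ a :: d :: b :: h) (p ++ a :: b :: d :: h) = 1
  T2 : ∀ (p h : List (Letter m)) (a b d : Letter m), a ≠ d → b ≠ d →
      adjc a b → ¬ adjc a d → ¬ adjc b d → Good init (p ++ a :: b :: a :: d :: h) →
      c (p ++ a :: b :: a :: d :: h) (p ++ b :: a :: b :: d :: h) *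
      c (p ++ b :: a :: b :: d :: h) (p ++ b :: a :: d :: b :: h) *
      c (p ++ b :: a :: d :: b :: h) (p ++ b :: d :: a :: b :: h) *
      c (p ++ b :: d :: a :: b :: h) (p ++ d :: b :: a :: b :: h) *
      c (p ++ d :: b :: a :: b :: h) (p ++ d :: a :: b :: a :: h) *
      c (p ++ d :: a :: b :: a :: h) (p ++ a :: d :: b :: a :: h) *
      c (p ++ a :: d :: b :: a :: h) (p ++ a :: b :: d :: a :: h) *
      c (p ++ a :: b :: d :: a :: h) (p ++ a :: b :: a :: d :: h) = 1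
  T3 : ∀ (p h : List (Letter m)) (a b d : Letter m), a ≠ d →
      adjc a b → adjc b d → Good init (p ++ a :: b :: a :: d :: b :: a :: h) →
      c (p ++ a :: b :: a :: d :: b :: a :: h) (p ++ b :: a :: b :: d :: b :: a :: h) *
      c (p ++ b :: a :: b :: d :: b :: a :: h) (p ++ b :: a :: d :: b :: d :: a :: h) *
      c (p ++ b :: a :: d :: b :: d :: a :: h) (p ++ b :: d :: a :: b :: d :: a :: h) *
      c (p ++ b :: d :: a :: b :: d :: a :: h) (p ++ b :: d :: a :: b :: a :: d :: h) *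
      c (p ++ b :: d :: a :: b :: a :: d :: h) (p ++ b :: d :: b :: a :: b :: d :: h) *
      c (p ++ b :: d :: b :: a :: b :: d :: h) (p ++ d :: b :: d :: a :: b :: d :: h) *
      c (p ++ d :: b :: d :: a :: b :: d :: h) (p ++ d :: b :: a :: d :: b :: d :: h) *
      c (p ++ d :: b :: a :: d :: b :: d :: h) (p ++ d :: b :: a :: b :: d :: b :: h) *
      c (p ++ d :: b :: a :: b :: d :: b :: h) (p ++ d :: a :: b :: a :: d :: b :: h) *
      c (p ++ d :: a :: b :: a :: d :: b :: h) (p ++ a :: d :: b :: a :: d :: b :: h) *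
      c (p ++ a :: d :: b :: a :: d :: b :: h) (p ++ a :: d :: b :: d :: a :: b :: h) *
      c (p ++ a :: d :: b :: d :: a :: b :: h) (p ++ a :: b :: d :: b :: a :: b :: h) *
      c (p ++ a :: b :: d :: b :: a :: b :: h) (p ++ a :: b :: d :: a :: b :: a :: h) *
      c (p ++ a :: b :: d :: a :: b :: a :: h) (p ++ a :: b :: a :: d :: b :: a :: h) = 1

section
variable {H : Type*} [Group H] {c : List (Letter m) → List (Letter m) → H}

/-- `Φ` is a potential for the steps in the tails -/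
def TailPot (c : List (Letter m) → List (Letter m) → H) (p : List (Letter m)) (σ : State m)
    (Φ : List (Letter m) → H) : Prop :=
  ∀ x f g, Good σ (x :: f) → Step f g → c (p ++ x :: f) (p ++ x :: g) = (Φ (x :: f))⁻¹ * Φ (x :: g)

/-- the transition element -/
def Dd (c : List (Letter m) → List (Letter m) → H) (p : List (Letter m))
    (Φ : List (Letter m) → H) (x y : Letter m) (h : List (Letter m)) : H :=
  Φ (alt x y ++ h) * c (p ++ (alt x y ++ h)) (p ++ (alt y x ++ h)) * (Φ (alt y x ++ h))⁻¹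

theorem alt_cons (x y : Letter m) : alt x y = x :: tl x y := rfl

theorem Dd_eq (hc : Coc c) {p : List (Letter m)} {σ : State m} {Φ : List (Letter m) → H}
    (hp : AscRun init p) (hσ : run init p = σ)
    (hΦ : TailPot c p σ Φ) {x y : Letter m} (hxy : x ≠ y) {h h' : List (Letter m)}
    (hg : Good σ (alt x y ++ h)) (hs : Step h h') : Dd c p Φ x y h = Dd c p Φ x y h' := by
  have hg2 : Good σ (alt y x ++ h) := (good_alt σ hxy h).mp hg
  have hgi : Good init (p ++ (alt x y ++ h)) := (good_append _ _ _).mpr ⟨hp, hσ ▸ hg⟩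
  have hB := hc.B p h h' x y hxy hs hgi
  have st : ∀ q : List (Letter m), Step (q ++ h) (q ++ h') := by
    intro q
    induction q with
    | nil => exact hs
    | cons a q ih => exact ih.cons a
  have e1 : c (p ++ (alt x y ++ h)) (p ++ (alt x y ++ h')) =
      (Φ (alt x y ++ h))⁻¹ * Φ (alt x y ++ h') := hΦ x _ _ hg (st _)
  have e2 : c (p ++ (alt y x ++ h)) (p ++ (alt y x ++ h')) =
      (Φ (alt y x ++ h))⁻¹ * Φ (alt y x ++ h') := hΦ y _ _ hg2 (st _)
  unfold Dd
  rw [e1, e2] at hB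
  have e3 : c (p ++ (alt x y ++ h)) (p ++ (alt y x ++ h)) = (Φ (alt x y ++ h))⁻¹ *
      Φ (alt x y ++ h') * c (p ++ (alt x y ++ h')) (p ++ (alt y x ++ h')) *
      (Φ (alt y x ++ h'))⁻¹ * Φ (alt y x ++ h) := by
    rw [← hB]; group
  rw [e3]; group

theorem Dd_eq_all (hc : Coc c) {p : List (Letter m)} {σ : State m} {Φ : List (Letter m) → H}
    (hp : AscRun init p) (hσ : run init p = σ)
    (hΦ : TailPot c p σ Φ) {x y : Letter m} (hxy : x ≠ y) {h h' : List (Letter m)}
    (hg : Good σ (alt x y ++ h)) (hg' : Good σ (alt x y ++ h')) :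
    Dd c p Φ x y h = Dd c p Φ x y h' := by
  rw [good_append] at hg hg'
  have h1 := conn _ h h' hg.2 hg'.2
  have ha := hg.1
  clear hg hg'
  induction h1 with
  | rel u v h => exact Dd_eq hc hp hσ hΦ hxy ((good_append _ _ _).mpr ⟨ha, h.1⟩) h.2
  | refl u => rfl
  | symm u v _ ih => exact ih.symm
  | trans u v w _ _ ih1 ih2 => exact ih1.trans ih2

theorem Dd_symm (hc : Coc c) (p : List (Letter m)) (Φ : List (Letter m) → H) (x y : Letter m)
    (h : List (Letter m)) : Dd c p Φ x y h * Dd c p Φ y x h = 1 := by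
  unfold Dd
  have := hc.A (p ++ (alt x y ++ h)) (p ++ (alt y x ++ h))
  have e : c (p ++ (alt y x ++ h)) (p ++ (alt x y ++ h)) =
      (c (p ++ (alt x y ++ h)) (p ++ (alt y x ++ h)))⁻¹ := (inv_eq_of_mul_eq_one_right this).symm
  rw [e]; group

theorem tri1 (hc : Coc c) {p : List (Letter m)} {σ : State m} {Φ : List (Letter m) → H}
    (hp : AscRun init p) (hσ : run init p = σ) (hΦ : TailPot c p σ Φ)
    {a b d : Letter m} (hab : a ≠ b) (had : a ≠ d) (hbd : b ≠ d)
    (h1 : ¬ adjc a b) (h2 : ¬ adjc a d) (h3 : ¬ adjc b d)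
    (ha : asc σ a) (hb : asc σ b) (hd : asc σ d) :
    ∃ k1 k2 k3, Good σ (alt a b ++ k1) ∧ Good σ (alt b d ++ k2) ∧ Good σ (alt d a ++ k3) ∧
      Dd c p Φ a b k1 * Dd c p Φ b d k2 * Dd c p Φ d a k3 = 1 := by
  have h1' : ¬ adjc b a := fun h => h1 ((adjc_comm _ _).mp h)
  have h2' : ¬ adjc d a := fun h => h2 ((adjc_comm _ _).mp h)
  have h3' : ¬ adjc d b := fun h => h3 ((adjc_comm _ _).mp h)
  have hr : AscRun σ [a, b, d] := by
    refine ⟨ha, (asc_act_of_nadj hab h1).mpr hb, ?_, trivial⟩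
    exact (asc_act_of_nadj hbd h3).mpr ((asc_act_of_nadj had h2).mpr hd)
  obtain ⟨h, hh⟩ := exists_good (run σ [a, b, d])
  have g1 : Good σ (a :: b :: d :: h) := (good_append σ [a, b, d] h).mpr ⟨hr, hh⟩
  have s1 : Step (a :: b :: d :: h) (b :: a :: d :: h) := Step.swap [] _ hab h1
  have g2 : Good σ (b :: a :: d :: h) := (s1.good σ).mp g1
  have s2 : Step (a :: d :: h) (d :: a :: h) := Step.swap [] _ had h2
  have g3 : Good σ (b :: d :: a :: h) := ((s2.cons b).good σ).mp g2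
  have s3 : Step (b :: d :: a :: h) (d :: b :: a :: h) := Step.swap [] _ hbd h3
  have g4 : Good σ (d :: b :: a :: h) := (s3.good σ).mp g3
  have s4 : Step (b :: a :: h) (a :: b :: h) := Step.swap [] _ hab.symm h1'
  have g5 : Good σ (d :: a :: b :: h) := ((s4.cons d).good σ).mp g4
  have s5 : Step (d :: a :: b :: h) (a :: d :: b :: h) := Step.swap [] _ had.symm h2'
  have g6 : Good σ (a :: d :: b :: h) := (s5.good σ).mp g5
  have s6 : Step (d :: b :: h) (b :: d :: h) := Step.swap [] _ hbd.symm h3'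
  refine ⟨d :: h, a :: h, b :: h, ?_, ?_, ?_, ?_⟩
  · rw [alt_nadj h1]; exact g1
  · rw [alt_nadj h3]; exact g3
  · rw [alt_nadj h2']; exact g5
  · have hT := hc.T1 p h a b d hab had hbd h1 h2 h3 ((good_append _ _ _).mpr ⟨hp, hσ ▸ g1⟩)
    unfold Dd
    rw [alt_nadj h1, alt_nadj h3, alt_nadj h2', alt_nadj h1', alt_nadj h3', alt_nadj h2]
    simp only [List.cons_append, List.nil_append]
    rw [hΦ b _ _ g2 s2, hΦ d _ _ g4 s4, hΦ a _ _ g6 s6] at hT
    set w1 := Φ (a :: b :: d :: h)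
    set w2 := Φ (b :: a :: d :: h)
    set w3 := Φ (b :: d :: a :: h)
    set w4 := Φ (d :: b :: a :: h)
    set w5 := Φ (d :: a :: b :: h)
    set w6 := Φ (a :: d :: b :: h)
    have e : w1 * c (p ++ a :: b :: d :: h) (p ++ b :: a :: d :: h) * w2⁻¹ *
        (w3 * c (p ++ b :: d :: a :: h) (p ++ d :: b :: a :: h) * w4⁻¹) *
        (w5 * c (p ++ d :: a :: b :: h) (p ++ a :: d :: b :: h) * w6⁻¹) =
        w1 * (c (p ++ a :: b :: d :: h) (p ++ b :: a :: d :: h) * (w2⁻¹ * w3) *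
        c (p ++ b :: d :: a :: h) (p ++ d :: b :: a :: h) * (w4⁻¹ * w5) *
        c (p ++ d :: a :: b :: h) (p ++ a :: d :: b :: h) * (w6⁻¹ * w1)) * w1⁻¹ := by group
    rw [e, hT]; group


theorem tri2 (hc : Coc c) {p : List (Letter m)} {σ : State m} {Φ : List (Letter m) → H}
    (hp : AscRun init p) (hσ : run init p = σ) (hΦ : TailPot c p σ Φ)
    {a b d : Letter m} (e_ad : a ≠ d) (e_bd : b ≠ d)
    (j_ab : adjc a b) (n_ad : ¬ adjc a d) (n_bd : ¬ adjc b d)
    (ha : asc σ a) (hb : asc σ b) (hd : asc σ d) :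
    ∃ k1 k2 k3, Good σ (alt a b ++ k1) ∧ Good σ (alt b d ++ k2) ∧ Good σ (alt d a ++ k3) ∧
      Dd c p Φ a b k1 * Dd c p Φ b d k2 * Dd c p Φ d a k3 = 1 := by
  have j_ba : adjc b a := (adjc_comm _ _).mp j_ab
  have n_da : ¬ adjc d a := fun h => n_ad ((adjc_comm _ _).mp h)
  have n_db : ¬ adjc d b := fun h => n_bd ((adjc_comm _ _).mp h)
  have e_ab := ne_of_adjc j_ab
  have e_da := e_ad.symm
  have e_db := e_bd.symm
  have hr : AscRun σ [a, b, a, d] := by
    have h1 := (alt_asc σ e_ab).mpr ⟨ha, hb⟩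
    rw [alt_adj j_ab] at h1
    refine ⟨h1.1, h1.2.1, h1.2.2.1, ?_, trivial⟩
    exact (asc_act_of_nadj e_ad n_ad).mpr ((asc_act_of_nadj e_bd n_bd).mpr
      ((asc_act_of_nadj e_ad n_ad).mpr hd))
  obtain ⟨h, hh⟩ := exists_good (run σ [a, b, a, d])
  have g0 : Good σ (a :: b :: a :: d :: h) := (good_append σ [a, b, a, d] h).mpr ⟨hr, hh⟩
  have s0 : Step (a :: b :: a :: d :: h) (b :: a :: b :: d :: h) := Step.braid [] _ j_ab
  have g1 : Good σ (b :: a :: b :: d :: h) := (s0.good σ).mp g0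
  have s1 : Step (a :: b :: d :: h) (a :: d :: b :: h) := Step.swap [a] _ e_bd n_bd
  have g2 : Good σ (b :: a :: d :: b :: h) := ((s1.cons b).good σ).mp g1
  have s2 : Step (a :: d :: b :: h) (d :: a :: b :: h) := Step.swap [] _ e_ad n_ad
  have g3 : Good σ (b :: d :: a :: b :: h) := ((s2.cons b).good σ).mp g2
  have s3 : Step (b :: d :: a :: b :: h) (d :: b :: a :: b :: h) := Step.swap [] _ e_bd n_bd
  have g4 : Good σ (d :: b :: a :: b :: h) := (s3.good σ).mp g3
  have s4 : Step (b :: a :: b :: h) (a :: b :: a :: h) := Step.braid [] _ j_ba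
  have g5 : Good σ (d :: a :: b :: a :: h) := ((s4.cons d).good σ).mp g4
  have s5 : Step (d :: a :: b :: a :: h) (a :: d :: b :: a :: h) := Step.swap [] _ e_da n_da
  have g6 : Good σ (a :: d :: b :: a :: h) := (s5.good σ).mp g5
  have s6 : Step (d :: b :: a :: h) (b :: d :: a :: h) := Step.swap [] _ e_db n_db
  have g7 : Good σ (a :: b :: d :: a :: h) := ((s6.cons a).good σ).mp g6
  have s7 : Step (b :: d :: a :: h) (b :: a :: d :: h) := Step.swap [b] _ e_da n_da
  refine ⟨d :: h, a :: b :: h, b :: a :: h, ?_, ?_, ?_, ?_⟩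
  · rw [alt_adj j_ab]; exact g0
  · rw [alt_nadj n_bd]; exact g3
  · rw [alt_nadj n_da]; exact g5
  · have hT := hc.T2 p h a b d e_ad e_bd j_ab n_ad n_bd
      ((good_append _ _ _).mpr ⟨hp, hσ ▸ g0⟩)
    unfold Dd
    rw [alt_adj j_ab, alt_adj j_ba, alt_nadj n_bd, alt_nadj n_db, alt_nadj n_da, alt_nadj n_ad]
    simp only [List.cons_append, List.nil_append]
    rw [hΦ b _ _ g1 s1, hΦ b _ _ g2 s2, hΦ d _ _ g4 s4, hΦ a _ _ g6 s6, hΦ a _ _ g7 s7] at hT
    set w0 := Φ (a :: b :: a :: d :: h)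
    set w1 := Φ (b :: a :: b :: d :: h)
    set w2 := Φ (b :: a :: d :: b :: h)
    set w3 := Φ (b :: d :: a :: b :: h)
    set w4 := Φ (d :: b :: a :: b :: h)
    set w5 := Φ (d :: a :: b :: a :: h)
    set w6 := Φ (a :: d :: b :: a :: h)
    set w7 := Φ (a :: b :: d :: a :: h)
    have e : (w0 * c (p ++ a :: b :: a :: d :: h) (p ++ b :: a :: b :: d :: h) * w1⁻¹) *
        (w3 * c (p ++ b :: d :: a :: b :: h) (p ++ d :: b :: a :: b :: h) * w4⁻¹) *
        (w5 * c (p ++ d :: a :: b :: a :: h) (p ++ a :: d :: b :: a :: h) * w6⁻¹) =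
        w0 * (c (p ++ a :: b :: a :: d :: h) (p ++ b :: a :: b :: d :: h) *
        (w1⁻¹ * w2) *
        (w2⁻¹ * w3) *
        c (p ++ b :: d :: a :: b :: h) (p ++ d :: b :: a :: b :: h) *
        (w4⁻¹ * w5) *
        c (p ++ d :: a :: b :: a :: h) (p ++ a :: d :: b :: a :: h) *
        (w6⁻¹ * w7) *
        (w7⁻¹ * w0)) * w0⁻¹ := by group
    rw [e, hT]; group

theorem tri3 (hc : Coc c) {p : List (Letter m)} {σ : State m} {Φ : List (Letter m) → H}
    (hp : AscRun init p) (hσ : run init p = σ) (hΦ : TailPot c p σ Φ)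
    {a b d : Letter m} (e_ad : a ≠ d)
    (j_ab : adjc a b) (j_bd : adjc b d) (n_ad : ¬ adjc a d)
    (ha : asc σ a) (hb : asc σ b) (hd : asc σ d) :
    ∃ k1 k2 k3, Good σ (alt a b ++ k1) ∧ Good σ (alt b d ++ k2) ∧ Good σ (alt d a ++ k3) ∧
      Dd c p Φ a b k1 * Dd c p Φ b d k2 * Dd c p Φ d a k3 = 1 := by
  have j_ba : adjc b a := (adjc_comm _ _).mp j_ab
  have j_db : adjc d b := (adjc_comm _ _).mp j_bd
  have n_da : ¬ adjc d a := fun h => n_ad ((adjc_comm _ _).mp h)
  have e_ab := ne_of_adjc j_ab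
  have e_bd := ne_of_adjc j_bd
  have e_da := e_ad.symm
  have e_db := e_bd.symm
  have hr : AscRun σ [a, b, a, d, b, a] := by
    have h1 := (alt_asc σ e_ab).mpr ⟨ha, hb⟩
    rw [alt_adj j_ab] at h1
    obtain ⟨-, h2, h3, -⟩ := h1
    have h4 : asc (act σ a) d := (asc_act_of_nadj e_ad n_ad).mpr hd
    have h5 := (alt_asc (act σ a) e_bd).mpr ⟨h2, h4⟩
    rw [alt_adj j_bd] at h5
    obtain ⟨-, h6, h7, -⟩ := h5
    have h8 : asc (act (act (act σ a) b) a) d := (asc_act_of_nadj e_ad n_ad).mpr h6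
    have h9 : asc (act (act (act σ a) b) d) a := (asc_act_of_nadj e_da n_da).mpr h3
    have h10 := (alt_asc (act (act (act σ a) b) d) e_ab).mpr ⟨h9, h7⟩
    rw [alt_adj j_ab] at h10
    obtain ⟨-, h11, h12, -⟩ := h10
    rw [act_comm e_da n_da] at h11 h12
    exact ⟨ha, h2, h3, h8, h11, h12, trivial⟩
  obtain ⟨h, hh⟩ := exists_good (run σ [a, b, a, d, b, a])
  have g0 : Good σ (a :: b :: a :: d :: b :: a :: h) :=
    (good_append σ [a, b, a, d, b, a] h).mpr ⟨hr, hh⟩
  have s0 : Step (a :: b :: a :: d :: b :: a :: h) (b :: a :: b :: d :: b :: a :: h) := Step.braid [] _ j_ab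
  have g1 : Good σ (b :: a :: b :: d :: b :: a :: h) := (s0.good σ).mp g0
  have s1 : Step (a :: b :: d :: b :: a :: h) (a :: d :: b :: d :: a :: h) := Step.braid [a] _ j_bd
  have g2 : Good σ (b :: a :: d :: b :: d :: a :: h) := ((s1.cons b).good σ).mp g1
  have s2 : Step (a :: d :: b :: d :: a :: h) (d :: a :: b :: d :: a :: h) := Step.swap [] _ e_ad n_ad
  have g3 : Good σ (b :: d :: a :: b :: d :: a :: h) := ((s2.cons b).good σ).mp g2
  have s3 : Step (d :: a :: b :: d :: a :: h) (d :: a :: b :: a :: d :: h) := Step.swap [d, a, b] _ e_da n_da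
  have g4 : Good σ (b :: d :: a :: b :: a :: d :: h) := ((s3.cons b).good σ).mp g3
  have s4 : Step (d :: a :: b :: a :: d :: h) (d :: b :: a :: b :: d :: h) := Step.braid [d] _ j_ab
  have g5 : Good σ (b :: d :: b :: a :: b :: d :: h) := ((s4.cons b).good σ).mp g4
  have s5 : Step (b :: d :: b :: a :: b :: d :: h) (d :: b :: d :: a :: b :: d :: h) := Step.braid [] _ j_bd
  have g6 : Good σ (d :: b :: d :: a :: b :: d :: h) := (s5.good σ).mp g5
  have s6 : Step (b :: d :: a :: b :: d :: h) (b :: a :: d :: b :: d :: h) := Step.swap [b] _ e_da n_da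
  have g7 : Good σ (d :: b :: a :: d :: b :: d :: h) := ((s6.cons d).good σ).mp g6
  have s7 : Step (b :: a :: d :: b :: d :: h) (b :: a :: b :: d :: b :: h) := Step.braid [b, a] _ j_db
  have g8 : Good σ (d :: b :: a :: b :: d :: b :: h) := ((s7.cons d).good σ).mp g7
  have s8 : Step (b :: a :: b :: d :: b :: h) (a :: b :: a :: d :: b :: h) := Step.braid [] _ j_ba
  have g9 : Good σ (d :: a :: b :: a :: d :: b :: h) := ((s8.cons d).good σ).mp g8
  have s9 : Step (d :: a :: b :: a :: d :: b :: h) (a :: d :: b :: a :: d :: b :: h) := Step.swap [] _ e_da n_da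
  have g10 : Good σ (a :: d :: b :: a :: d :: b :: h) := (s9.good σ).mp g9
  have s10 : Step (d :: b :: a :: d :: b :: h) (d :: b :: d :: a :: b :: h) := Step.swap [d, b] _ e_ad n_ad
  have g11 : Good σ (a :: d :: b :: d :: a :: b :: h) := ((s10.cons a).good σ).mp g10
  have s11 : Step (d :: b :: d :: a :: b :: h) (b :: d :: b :: a :: b :: h) := Step.braid [] _ j_db
  have g12 : Good σ (a :: b :: d :: b :: a :: b :: h) := ((s11.cons a).good σ).mp g11
  have s12 : Step (b :: d :: b :: a :: b :: h) (b :: d :: a :: b :: a :: h) := Step.braid [b, d] _ j_ba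
  have g13 : Good σ (a :: b :: d :: a :: b :: a :: h) := ((s12.cons a).good σ).mp g12
  have s13 : Step (b :: d :: a :: b :: a :: h) (b :: a :: d :: b :: a :: h) := Step.swap [b] _ e_da n_da
  refine ⟨d :: b :: a :: h, a :: b :: d :: h, b :: a :: d :: b :: h, ?_, ?_, ?_, ?_⟩
  · rw [alt_adj j_ab]; exact g0
  · rw [alt_adj j_bd]; exact g5
  · rw [alt_nadj n_da]; exact g9
  · have hT := hc.T3 p h a b d e_ad j_ab j_bd
      ((good_append _ _ _).mpr ⟨hp, hσ ▸ g0⟩)
    unfold Dd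
    rw [alt_adj j_ab, alt_adj j_ba, alt_adj j_bd, alt_adj j_db, alt_nadj n_da, alt_nadj n_ad]
    simp only [List.cons_append, List.nil_append]
    rw [hΦ b _ _ g1 s1, hΦ b _ _ g2 s2, hΦ b _ _ g3 s3, hΦ b _ _ g4 s4, hΦ d _ _ g6 s6, hΦ d _ _ g7 s7, hΦ d _ _ g8 s8, hΦ a _ _ g10 s10, hΦ a _ _ g11 s11, hΦ a _ _ g12 s12, hΦ a _ _ g13 s13] at hT
    set w0 := Φ (a :: b :: a :: d :: b :: a :: h)
    set w1 := Φ (b :: a :: b :: d :: b :: a :: h)
    set w2 := Φ (b :: a :: d :: b :: d :: a :: h)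
    set w3 := Φ (b :: d :: a :: b :: d :: a :: h)
    set w4 := Φ (b :: d :: a :: b :: a :: d :: h)
    set w5 := Φ (b :: d :: b :: a :: b :: d :: h)
    set w6 := Φ (d :: b :: d :: a :: b :: d :: h)
    set w7 := Φ (d :: b :: a :: d :: b :: d :: h)
    set w8 := Φ (d :: b :: a :: b :: d :: b :: h)
    set w9 := Φ (d :: a :: b :: a :: d :: b :: h)
    set w10 := Φ (a :: d :: b :: a :: d :: b :: h)
    set w11 := Φ (a :: d :: b :: d :: a :: b :: h)
    set w12 := Φ (a :: b :: d :: b :: a :: b :: h)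
    set w13 := Φ (a :: b :: d :: a :: b :: a :: h)
    have e : (w0 * c (p ++ a :: b :: a :: d :: b :: a :: h) (p ++ b :: a :: b :: d :: b :: a :: h) * w1⁻¹) *
        (w5 * c (p ++ b :: d :: b :: a :: b :: d :: h) (p ++ d :: b :: d :: a :: b :: d :: h) * w6⁻¹) *
        (w9 * c (p ++ d :: a :: b :: a :: d :: b :: h) (p ++ a :: d :: b :: a :: d :: b :: h) * w10⁻¹) =
        w0 * (c (p ++ a :: b :: a :: d :: b :: a :: h) (p ++ b :: a :: b :: d :: b :: a :: h) *
        (w1⁻¹ * w2) *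
        (w2⁻¹ * w3) *
        (w3⁻¹ * w4) *
        (w4⁻¹ * w5) *
        c (p ++ b :: d :: b :: a :: b :: d :: h) (p ++ d :: b :: d :: a :: b :: d :: h) *
        (w6⁻¹ * w7) *
        (w7⁻¹ * w8) *
        (w8⁻¹ * w9) *
        c (p ++ d :: a :: b :: a :: d :: b :: h) (p ++ a :: d :: b :: a :: d :: b :: h) *
        (w10⁻¹ * w11) *
        (w11⁻¹ * w12) *
        (w12⁻¹ * w13) *
        (w13⁻¹ * w0)) * w0⁻¹ := by group
    rw [e, hT]; group

end

end N337.DW
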