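import Pool.Agent.N337.DW.Pot

/-!
# The potential
-/

namespace N337.DW
open Equiv

variable {m : ℕ}

section
variable {H : Type*} [Group H] {c : List (Letter m) → List (Letter m) → H}

theorem not_adjc_of {a b d : Letter m} (h1 : adjc a b) (h2 : adjc b d) (h : a ≠ d) :
    ¬ adjc a d := by
  rintro ⟨h3, h4⟩
  have h5 := h1.2
  have h6 := h2.2
  omega

theorem Step.tail_cases {f g : List (Letter m)} (h : Step f g) :
    (∃ a b r, a ≠ b ∧ f = alt a b ++ r ∧ g = alt b a ++ r) ∨
    (∃ x f' g', f = x :: f' ∧ g = x :: g' ∧ Step f' g') := by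
  obtain ⟨q, r, a, b, hab⟩ := h
  cases q with
  | nil => exact Or.inl ⟨a, b, r, hab, rfl, rfl⟩
  | cons x q => exact Or.inr ⟨x, _, _, rfl, rfl, Step.mk q r a b hab⟩

theorem pot (hc : Coc c) (σ : State m) (p : List (Letter m)) (hp : AscRun init p)
    (hσ : run init p = σ) :
    ∃ φ : List (Letter m) → H, ∀ f g, Good σ f → Step f g →
      c (p ++ f) (p ++ g) = (φ f)⁻¹ * φ g := by
  classical
  generalize hk : rk σ = k
  induction k using Nat.strong_induction_on generalizing σ p with
  | _ k ih =>
    subst hk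
    have h1 : ∀ x : Letter m, ∃ φ : List (Letter m) → H, asc σ x → ∀ f g, Good (act σ x) f →
        Step f g → c ((p ++ [x]) ++ f) ((p ++ [x]) ++ g) = (φ f)⁻¹ * φ g := by
      intro x
      by_cases hx : asc σ x
      · have hp' : AscRun init (p ++ [x]) := (ascRun_append _ _ _).mpr
          ⟨hp, by rw [hσ]; exact ⟨hx, trivial⟩⟩
        have hσ' : run init (p ++ [x]) = act σ x := by
          rw [run_append, hσ]; rfl
        obtain ⟨φ, hφ⟩ := ih _ (rk_act hx) (act σ x) (p ++ [x]) hp' hσ' rfl
        exact ⟨φ, fun _ => hφ⟩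
      · exact ⟨fun _ => 1, fun h => absurd h hx⟩
    choose φ hφ using h1
    let Φ : List (Letter m) → H := fun w => match w with
      | [] => 1
      | x :: f => φ x f
    have hΦ : TailPot c p σ Φ := by
      intro x f g hg hs
      rw [good_cons] at hg
      have := hφ x hg.1 f g hg.2 hs
      simpa using this
    let D : Letter m → Letter m → H := fun x y =>
      Dd c p Φ x y (Classical.choose (exists_good (run σ (alt x y))))
    have hD : ∀ x y, x ≠ y → ∀ h, Good σ (alt x y ++ h) → Dd c p Φ x y h = D x y := by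
      intro x y hxy h hg
      have hg0 := hg
      rw [good_append] at hg
      exact Dd_eq_all hc hp hσ hΦ hxy hg0 ((good_append _ _ _).mpr
        ⟨hg.1, Classical.choose_spec (exists_good (run σ (alt x y)))⟩)
    have hsymm : ∀ x y, asc σ x → asc σ y → x ≠ y → D x y * D y x = 1 := by
      intro x y hx hy hxy
      obtain ⟨h, hh⟩ := exists_good (run σ (alt x y))
      have g1 : Good σ (alt x y ++ h) := (good_append _ _ _).mpr ⟨(alt_asc σ hxy).mpr ⟨hx, hy⟩, hh⟩
      have g2 : Good σ (alt y x ++ h) := (good_alt σ hxy h).mp g1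
      rw [← hD x y hxy h g1, ← hD y x hxy.symm h g2]
      exact Dd_symm hc p Φ x y h
    have rot : ∀ x y z, D x y * D y z * D z x = 1 → D y z * D z x * D x y = 1 := by
      intro x y z h
      have : D y z * D z x * D x y = (D x y)⁻¹ * (D x y * D y z * D z x) * D x y := by group
      rw [this, h]; group
    have rev : ∀ x y z, asc σ x → asc σ y → asc σ z → x ≠ y → y ≠ z → x ≠ z →
        D x y * D y z * D z x = 1 → D z y * D y x * D x z = 1 := by
      intro x y z hx hy hz hxy hyz hxz h
      have e1 : D z y = (D y z)⁻¹ := eq_inv_of_mul_eq_one_left (hsymm z y hz hy hyz.symm)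
      have e2 : D y x = (D x y)⁻¹ := eq_inv_of_mul_eq_one_left (hsymm y x hy hx hxy.symm)
      have e3 : D x z = (D z x)⁻¹ := eq_inv_of_mul_eq_one_left (hsymm x z hx hz hxz)
      have h' := rot _ _ _ (rot _ _ _ h)
      have : D z y * D y x * D x z = (D z x * D x y * D y z)⁻¹ := by
        rw [e1, e2, e3]; group
      rw [this, h']; simp
    have conv : ∀ x y z, x ≠ y → y ≠ z → z ≠ x → (∃ k1 k2 k3, Good σ (alt x y ++ k1) ∧
        Good σ (alt y z ++ k2) ∧ Good σ (alt z x ++ k3) ∧
        Dd c p Φ x y k1 * Dd c p Φ y z k2 * Dd c p Φ z x k3 = 1) →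
        D x y * D y z * D z x = 1 := by
      rintro x y z hxy hyz hzx ⟨k1, k2, k3, g1, g2, g3, h⟩
      rwa [hD x y hxy k1 g1, hD y z hyz k2 g2, hD z x hzx k3 g3] at h
    have tri : ∀ x y z, asc σ x → asc σ y → asc σ z → x ≠ y → y ≠ z → x ≠ z →
        D x y * D y z * D z x = 1 := by
      intro x y z hx hy hz hxy hyz hxz
      by_cases a1 : adjc x y
      · have a1' := (adjc_comm _ _).mp a1
        by_cases a2 : adjc y z
        · exact conv _ _ _ hxy hyz hxz.symm
            (tri3 hc hp hσ hΦ hxz a1 a2 (not_adjc_of a1 a2 hxz) hx hy hz)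
        · by_cases a3 : adjc x z
          · have h := conv _ _ _ hxy.symm hxz hyz.symm
              (tri3 hc hp hσ hΦ hyz a1' a3 a2 hy hx hz)
            exact rot _ _ _ (rev _ _ _ hy hx hz hxy.symm hxz hyz h)
          · exact conv _ _ _ hxy hyz hxz.symm
              (tri2 hc hp hσ hΦ hxz hyz a1 a3 a2 hx hy hz)
      · have a1' : ¬ adjc y x := fun h => a1 ((adjc_comm _ _).mp h)
        by_cases a2 : adjc y z
        · have a2' := (adjc_comm _ _).mp a2
          by_cases a3 : adjc x z
          · have h := conv _ _ _ hxz hyz.symm hxy.symm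
              (tri3 hc hp hσ hΦ hxy a3 a2' a1 hx hz hy)
            exact rot _ _ _ (rot _ _ _ (rev _ _ _ hx hz hy hxz hyz.symm hxy h))
          · have a3' : ¬ adjc z x := fun h => a3 ((adjc_comm _ _).mp h)
            have h := conv _ _ _ hyz hxz.symm hxy
              (tri2 hc hp hσ hΦ hxy.symm hxz.symm a2 a1' a3' hy hz hx)
            exact rot _ _ _ (rot _ _ _ h)
        · have a2' : ¬ adjc z y := fun h => a2 ((adjc_comm _ _).mp h)
          by_cases a3 : adjc x z
          · have a3' := (adjc_comm _ _).mp a3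
            have h := conv _ _ _ hxz.symm hxy hyz
              (tri2 hc hp hσ hΦ hyz.symm hxy a3' a2' a1 hz hx hy)
            exact rot _ _ _ h
          · exact conv _ _ _ hxy hyz hxz.symm
              (tri1 hc hp hσ hΦ hxy hxz hyz a1 a3 a2 hx hy hz)
    by_cases hne : ∃ s, asc σ s
    · obtain ⟨s0, hs0⟩ := hne
      let E : Letter m → H := fun x => if x = s0 then 1 else D s0 x
      let ψ : List (Letter m) → H := fun w => match w with
        | [] => 1
        | x :: f => E x * Φ (x :: f)
      refine ⟨ψ, ?_⟩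
      intro f g hf hs
      have hs' := hs
      rcases hs.tail_cases with ⟨a, b, r, hab, rfl, rfl⟩ | ⟨x, f', g', rfl, rfl, hs2⟩
      · have hasc := ((good_append _ _ _).mp hf).1
        rw [alt_asc σ hab] at hasc
        obtain ⟨ha, hb⟩ := hasc
        have e1 : ψ (alt a b ++ r) = E a * Φ (alt a b ++ r) := rfl
        have e2 : ψ (alt b a ++ r) = E b * Φ (alt b a ++ r) := rfl
        have e3 : D a b = Φ (alt a b ++ r) * c (p ++ (alt a b ++ r)) (p ++ (alt b a ++ r)) *
            (Φ (alt b a ++ r))⁻¹ := (hD a b hab r hf).symm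
        have e4 : (E a)⁻¹ * E b = D a b := by
          by_cases h1 : a = s0
          · subst h1
            have : ¬ b = a := fun h => hab h.symm
            simp [E, this]
          · by_cases h2 : b = s0
            · subst h2
              simp only [E, if_neg h1, if_true, mul_one]
              exact (eq_inv_of_mul_eq_one_left (hsymm a b ha hb hab)).symm
            · simp only [E, if_neg h1, if_neg h2]
              have h3 := tri s0 a b hs0 ha hb (Ne.symm h1) hab (Ne.symm h2)
              have h4 : D b s0 = (D s0 b)⁻¹ :=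
                eq_inv_of_mul_eq_one_left (hsymm b s0 hb hs0 h2)
              rw [h4] at h3
              have h5 : D a b = (D s0 a)⁻¹ * (D s0 a * D a b * (D s0 b)⁻¹) * D s0 b := by group
              rw [h5, h3]; group
        rw [e1, e2]
        have e5 : c (p ++ (alt a b ++ r)) (p ++ (alt b a ++ r)) =
            (Φ (alt a b ++ r))⁻¹ * D a b * Φ (alt b a ++ r) := by rw [e3]; group
        rw [e5, ← e4]; group
      · have e1 : ψ (x :: f') = E x * Φ (x :: f') := rfl
        have e2 : ψ (x :: g') = E x * Φ (x :: g') := rfl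
        rw [e1, e2, hΦ x f' g' hf hs2]; group
    · refine ⟨fun _ => 1, ?_⟩
      intro f g hf hs
      exfalso
      rcases hs.tail_cases with ⟨a, b, r, hab, rfl, rfl⟩ | ⟨x, f', g', rfl, rfl, hs2⟩
      · exact hne ⟨a, ((good_cons _ _ _).mp hf).1⟩
      · exact hne ⟨x, ((good_cons _ _ _).mp hf).1⟩

end

end N337.DW
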