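import Pool.Agent.N337.DW.Cells

/-!
# The cocycle on words satisfies all relations of rank at most three
-/

set_option linter.unusedSimpArgs false

namespace N337.DW
open SimpleGraph

variable {m : ℕ}

section
variable {H : Type} [Group H] {c0 : Vert m → Vert m → H}

theorem cls_alt (p pre q : List (Letter m)) {a b : Letter m} (h : Indep a b) :
    cls (p ++ (pre ++ (alt a b ++ q))) = cls (p ++ (pre ++ (alt b a ++ q))) := by
  rw [alt_nadj (indep_nadj h), alt_nadj (indep_nadj (indep_symm h))]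
  exact cls_swap p pre q h

theorem adj_alt (p pre q : List (Letter m)) {a b : Letter m} (hab : a ≠ b) (h : ¬ Indep a b)
    {A B : Vert m} (hA : cls (p ++ (pre ++ (alt a b ++ q))) = some A)
    (hB : cls (p ++ (pre ++ (alt b a ++ q))) = some B) : (flipGraph m).Adj A B := by
  by_cases h1 : adjc a b
  · rw [alt_adj h1] at hA
    rw [alt_adj ((adjc_comm _ _).mp h1)] at hB
    exact (coxAdj_of p pre q h1 hA hB).adj
  · rw [alt_nadj h1] at hA
    rw [alt_nadj (fun h2 => h1 ((adjc_comm _ _).mp h2))] at hB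
    obtain ⟨h2, h3⟩ := dep_cases hab h1 h
    exact (mixAdj_of p pre q h2 h3 hA hB).adj

theorem relB (hv : VCoc c0) (p h h' : List (Letter m)) (a b : Letter m) (hab : a ≠ b)
    (hs : Step h h') (hg : Good init (p ++ (alt a b ++ h))) :
    cw c0 (p ++ (alt a b ++ h)) (p ++ (alt b a ++ h)) *
        cw c0 (p ++ (alt b a ++ h)) (p ++ (alt b a ++ h')) =
      cw c0 (p ++ (alt a b ++ h)) (p ++ (alt a b ++ h')) *
        cw c0 (p ++ (alt a b ++ h')) (p ++ (alt b a ++ h')) := by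
  unfold cw
  by_cases hI : Indep a b
  · have e1 : cls (p ++ (alt a b ++ h)) = cls (p ++ (alt b a ++ h)) := cls_alt p [] h hI
    have e2 : cls (p ++ (alt a b ++ h')) = cls (p ++ (alt b a ++ h')) := cls_alt p [] h' hI
    rw [e1, e2, hv.c1_self, hv.c1_self, one_mul, mul_one]
  have st : ∀ q : List (Letter m), Step (q ++ h) (q ++ h') := fun q => hs.append_left q
  have d00 : IsDouble (p ++ (alt a b ++ h)) := (isDouble_iff _).mpr hg
  have d10 : IsDouble (p ++ (alt b a ++ h)) :=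
    ((Step.mk [] h a b hab).append_left p).dbl.mp d00
  have d01 : IsDouble (p ++ (alt a b ++ h')) := ((st (alt a b)).append_left p).dbl.mp d00
  have d11 : IsDouble (p ++ (alt b a ++ h')) := ((st (alt b a)).append_left p).dbl.mp d10
  obtain ⟨A, hA⟩ := exists_cls d00
  obtain ⟨B, hB⟩ := exists_cls d10
  obtain ⟨C, hC⟩ := exists_cls d11
  obtain ⟨D, hD⟩ := exists_cls d01
  have a1 : (flipGraph m).Adj A B := adj_alt p [] h hab hI hA hB
  have a2 : (flipGraph m).Adj D C := adj_alt p [] h' hab hI hD hC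
  obtain ⟨q, r, a', b', hab'⟩ := hs
  have e0 : ∀ x y : Letter m, ∀ z w : Letter m, p ++ (alt x y ++ (q ++ alt z w ++ r)) =
      p ++ ((alt x y ++ q) ++ (alt z w ++ r)) := by intro x y z w; simp
  by_cases hI' : Indep a' b'
  · have e1 := cls_alt p (alt a b ++ q) r hI'
    have e2 := cls_alt p (alt b a ++ q) r hI'
    simp only [← e0] at e1 e2
    rw [e1, e2, hv.c1_self, hv.c1_self, one_mul, mul_one]
  · rw [hA, hB, hC, hD]
    simp only [c1_some]
    rw [e0] at hA hB hC hD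
    have a3 := adj_alt p (alt a b ++ q) r hab' hI' hA hD
    have a4 := adj_alt p (alt b a ++ q) r hab' hI' hB hC
    have h4 := hv.four a1 a4 a2.symm a3.symm
    have s1 := hv.symm A D
    have s2 := hv.symm D C
    have e3 : c0 A B * c0 B C = (c0 C D * c0 D A)⁻¹ := by
      rw [eq_inv_iff_mul_eq_one, ← mul_assoc]; exact h4
    rw [e3, mul_inv_rev, inv_eq_of_mul_eq_one_left s1, inv_eq_of_mul_eq_one_left s2]

theorem relT1 (hv : VCoc c0) (p h : List (Letter m)) (a b d : Letter m) (e_ab : a ≠ b)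
    (e_ad : a ≠ d) (e_bd : b ≠ d) (n_ab : ¬ adjc a b) (n_ad : ¬ adjc a d) (n_bd : ¬ adjc b d) :
    cw c0 (p ++ a :: b :: d :: h) (p ++ b :: a :: d :: h) *
      cw c0 (p ++ b :: a :: d :: h) (p ++ b :: d :: a :: h) *
      cw c0 (p ++ b :: d :: a :: h) (p ++ d :: b :: a :: h) *
      cw c0 (p ++ d :: b :: a :: h) (p ++ d :: a :: b :: h) *
      cw c0 (p ++ d :: a :: b :: h) (p ++ a :: d :: b :: h) *
      cw c0 (p ++ a :: d :: b :: h) (p ++ a :: b :: d :: h) = 1 := by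
  unfold cw
  have q_ab : Indep a b → cls (p ++ a :: b :: d :: h) = cls (p ++ b :: a :: d :: h) ∧
      cls (p ++ d :: b :: a :: h) = cls (p ++ d :: a :: b :: h) := fun hi =>
    ⟨cls_swap p [] (d :: h) hi, cls_swap p [d] h (indep_symm hi)⟩
  have q_ad : Indep a d → cls (p ++ b :: a :: d :: h) = cls (p ++ b :: d :: a :: h) ∧
      cls (p ++ d :: a :: b :: h) = cls (p ++ a :: d :: b :: h) := fun hi =>
    ⟨cls_swap p [b] h hi, cls_swap p [] (b :: h) (indep_symm hi)⟩
  have q_bd : Indep b d → cls (p ++ b :: d :: a :: h) = cls (p ++ d :: b :: a :: h) ∧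
      cls (p ++ a :: d :: b :: h) = cls (p ++ a :: b :: d :: h) := fun hi =>
    ⟨cls_swap p [] (a :: h) hi, cls_swap p [a] h (indep_symm hi)⟩
  by_cases i_ab : Indep a b
  · by_cases i_ad : Indep a d
    · rw [(q_ab i_ab).1, (q_ab i_ab).2, (q_ad i_ad).1, (q_ad i_ad).2]
      simp only [hv.c1_self, mul_one, one_mul]
      exact hv.c1_symm _ _
    · have i_bd : Indep b d := by
        by_contra hn
        have h1 := dep_cases e_ad n_ad i_ad
        have h2 := dep_cases e_bd n_bd hn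
        refine e_ab (Prod.ext ?_ (h1.2.trans h2.2.symm))
        have h3 := h1.1
        have h4 := h2.1
        revert h3 h4
        cases a.1 <;> cases b.1 <;> cases d.1 <;> simp
      rw [(q_ab i_ab).1, (q_ab i_ab).2, (q_bd i_bd).1, (q_bd i_bd).2]
      rw [(q_ab i_ab).1, (q_ab i_ab).2]
      simp only [hv.c1_self, mul_one, one_mul]
      exact hv.c1_symm _ _
  · have i_ad : Indep a d := by
      by_contra hn
      have h1 := dep_cases e_ab n_ab i_ab
      have h2 := dep_cases e_ad n_ad hn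
      refine e_bd (Prod.ext ?_ (h1.2.symm.trans h2.2))
      have h3 := h1.1
      have h4 := h2.1
      revert h3 h4
      cases a.1 <;> cases b.1 <;> cases d.1 <;> simp
    have i_bd : Indep b d := by
      by_contra hn
      have h1 := dep_cases e_ab n_ab i_ab
      have h2 := dep_cases e_bd n_bd hn
      refine e_ad (Prod.ext ?_ (h1.2.trans h2.2))
      have h3 := h1.1
      have h4 := h2.1
      revert h3 h4
      cases a.1 <;> cases b.1 <;> cases d.1 <;> simp
    rw [(q_ad i_ad).1, (q_ad i_ad).2, (q_bd i_bd).1, (q_bd i_bd).2]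
    simp only [hv.c1_self, mul_one, one_mul]
    exact hv.c1_symm _ _

theorem relT2 (hv : VCoc c0) (p h : List (Letter m)) (a b d : Letter m)
    (e_ad : a ≠ d) (e_bd : b ≠ d) (j_ab : adjc a b) (n_ad : ¬ adjc a d) (n_bd : ¬ adjc b d)
    (hg : Good init (p ++ a :: b :: a :: d :: h)) :
    cw c0 (p ++ a :: b :: a :: d :: h) (p ++ b :: a :: b :: d :: h) *
      cw c0 (p ++ b :: a :: b :: d :: h) (p ++ b :: a :: d :: b :: h) *
      cw c0 (p ++ b :: a :: d :: b :: h) (p ++ b :: d :: a :: b :: h) *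
      cw c0 (p ++ b :: d :: a :: b :: h) (p ++ d :: b :: a :: b :: h) *
      cw c0 (p ++ d :: b :: a :: b :: h) (p ++ d :: a :: b :: a :: h) *
      cw c0 (p ++ d :: a :: b :: a :: h) (p ++ a :: d :: b :: a :: h) *
      cw c0 (p ++ a :: d :: b :: a :: h) (p ++ a :: b :: d :: a :: h) *
      cw c0 (p ++ a :: b :: d :: a :: h) (p ++ a :: b :: a :: d :: h) = 1 := by
  have j_ba : adjc b a := (adjc_comm _ _).mp j_ab
  have n_da : ¬ adjc d a := fun h => n_ad ((adjc_comm _ _).mp h)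
  have n_db : ¬ adjc d b := fun h => n_bd ((adjc_comm _ _).mp h)
  have e_ab := ne_of_adjc j_ab
  have e_ba := e_ab.symm
  have e_da := e_ad.symm
  have e_db := e_bd.symm
  have d0 : IsDouble (p ++ a :: b :: a :: d :: h) := (isDouble_iff _).mpr hg
  have d1 : IsDouble (p ++ b :: a :: b :: d :: h) := ((Step.braid [] (d :: h) j_ab).append_left p).dbl.mp d0
  have d2 : IsDouble (p ++ b :: a :: d :: b :: h) := ((Step.swap [b, a] (h) e_bd n_bd).append_left p).dbl.mp d1
  have d3 : IsDouble (p ++ b :: d :: a :: b :: h) := ((Step.swap [b] (b :: h) e_ad n_ad).append_left p).dbl.mp d2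
  have d4 : IsDouble (p ++ d :: b :: a :: b :: h) := ((Step.swap [] (a :: b :: h) e_bd n_bd).append_left p).dbl.mp d3
  have d5 : IsDouble (p ++ d :: a :: b :: a :: h) := ((Step.braid [d] (h) j_ba).append_left p).dbl.mp d4
  have d6 : IsDouble (p ++ a :: d :: b :: a :: h) := ((Step.swap [] (b :: a :: h) e_da n_da).append_left p).dbl.mp d5
  have d7 : IsDouble (p ++ a :: b :: d :: a :: h) := ((Step.swap [a] (a :: h) e_db n_db).append_left p).dbl.mp d6
  obtain ⟨A0, h0⟩ := exists_cls d0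
  obtain ⟨A1, h1⟩ := exists_cls d1
  obtain ⟨A2, h2⟩ := exists_cls d2
  obtain ⟨A3, h3⟩ := exists_cls d3
  obtain ⟨A4, h4⟩ := exists_cls d4
  obtain ⟨A5, h5⟩ := exists_cls d5
  obtain ⟨A6, h6⟩ := exists_cls d6
  obtain ⟨A7, h7⟩ := exists_cls d7
  unfold cw
  by_cases i_ad : Indep a d
  · have i_da := indep_symm i_ad
    by_cases i_bd : Indep b d
    · have i_db := indep_symm i_bd
      have q1 : cls (p ++ b :: a :: b :: d :: h) = cls (p ++ b :: a :: d :: b :: h) := cls_swap p [b, a] (h) i_bd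
      have q2 : cls (p ++ b :: a :: d :: b :: h) = cls (p ++ b :: d :: a :: b :: h) := cls_swap p [b] (b :: h) i_ad
      have q3 : cls (p ++ b :: d :: a :: b :: h) = cls (p ++ d :: b :: a :: b :: h) := cls_swap p [] (a :: b :: h) i_bd
      have q5 : cls (p ++ d :: a :: b :: a :: h) = cls (p ++ a :: d :: b :: a :: h) := cls_swap p [] (b :: a :: h) i_da
      have q6 : cls (p ++ a :: d :: b :: a :: h) = cls (p ++ a :: b :: d :: a :: h) := cls_swap p [a] (a :: h) i_db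
      have q7 : cls (p ++ a :: b :: d :: a :: h) = cls (p ++ a :: b :: a :: d :: h) := cls_swap p [a, b] (h) i_da
      rw [q5, q6, q7, q1, q2, q3]
      simp only [hv.c1_self, mul_one]
      exact hv.c1_symm _ _
    · have i_db : ¬ Indep d b := fun h => i_bd (indep_symm h)
      obtain ⟨m_bd, m_bd'⟩ := dep_cases e_bd n_bd i_bd
      have m_db := Ne.symm m_bd
      have m_db' := m_bd'.symm
      have q2 : cls (p ++ b :: a :: d :: b :: h) = cls (p ++ b :: d :: a :: b :: h) := cls_swap p [b] (b :: h) i_ad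
      have q5 : cls (p ++ d :: a :: b :: a :: h) = cls (p ++ a :: d :: b :: a :: h) := cls_swap p [] (b :: a :: h) i_da
      have q7 : cls (p ++ a :: b :: d :: a :: h) = cls (p ++ a :: b :: a :: d :: h) := cls_swap p [a, b] (h) i_da
      have r2 : A3 = A2 := Option.some.inj (h3.symm.trans (q2.symm.trans h2))
      have r5 : A6 = A5 := Option.some.inj (h6.symm.trans (q5.symm.trans h5))
      have r7 : A0 = A7 := Option.some.inj (h0.symm.trans (q7.symm.trans h7))
      rw [h0, h1, h2, h3, h4, h5, h6, h7]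
      simp only [c1_some]
      have t0 := (coxAdj_of p [] (d :: h) j_ab h0 h1).adj
      have t1 := (mixAdj_of p [b, a] (h) m_bd m_bd' h1 h2).adj
      have t3 := (mixAdj_of p [] (a :: b :: h) m_bd m_bd' h3 h4).adj
      have t4 := (coxAdj_of p [d] (h) j_ba h4 h5).adj
      have t6 := (mixAdj_of p [a] (a :: h) m_db m_db' h6 h7).adj
      have f02 : A0 ≠ A2 := (cls_ne p [a, b, a, d] [b, a, d, b] h b d i_bd h0 h2 (by simp [proj, e_ab, e_ba, e_ad, e_da, e_bd, e_db]))
      have f04 : A0 ≠ A4 := (cls_ne p [a, b, a, d] [d, b, a, b] h b d i_bd h0 h4 (by simp [proj, e_ab, e_ba, e_ad, e_da, e_bd, e_db]))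
      have f14 : A1 ≠ A4 := (cls_ne p [b, a, b, d] [d, b, a, b] h b d i_bd h1 h4 (by simp [proj, e_ab, e_ba, e_ad, e_da, e_bd, e_db]))
      have f15 : A1 ≠ A5 := (cls_ne p [b, a, b, d] [d, a, b, a] h b d i_bd h1 h5 (by simp [proj, e_ab, e_ba, e_ad, e_da, e_bd, e_db]))
      have f25 : A2 ≠ A5 := (cls_ne p [b, a, d, b] [d, a, b, a] h b d i_bd h2 h5 (by simp [proj, e_ab, e_ba, e_ad, e_da, e_bd, e_db]))
      rw [r2] at t3
      rw [r5, ← r7] at t6
      rw [r2, r5, ← r7, hv.refl, hv.refl, hv.refl]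
      simp only [mul_one]
      exact hv.five t0 t1 t3 t4 t6 f02 f04 f14 f15 f25
  · have i_bd : Indep b d := by
      by_contra hn
      have h1 := dep_cases e_ad n_ad i_ad
      have h2 := dep_cases e_bd n_bd hn
      have h3 := h1.2
      have h4 := h2.2
      have h5 := j_ab.2
      rw [h3, ← h4] at h5
      omega
    have i_db := indep_symm i_bd
    obtain ⟨m_ad, m_ad'⟩ := dep_cases e_ad n_ad i_ad
    have m_da := Ne.symm m_ad
    have m_da' := m_ad'.symm
    have q1 : cls (p ++ b :: a :: b :: d :: h) = cls (p ++ b :: a :: d :: b :: h) := cls_swap p [b, a] (h) i_bd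
    have q3 : cls (p ++ b :: d :: a :: b :: h) = cls (p ++ d :: b :: a :: b :: h) := cls_swap p [] (a :: b :: h) i_bd
    have q6 : cls (p ++ a :: d :: b :: a :: h) = cls (p ++ a :: b :: d :: a :: h) := cls_swap p [a] (a :: h) i_db
    have r1 : A2 = A1 := Option.some.inj (h2.symm.trans (q1.symm.trans h1))
    have r3 : A4 = A3 := Option.some.inj (h4.symm.trans (q3.symm.trans h3))
    have r6 : A7 = A6 := Option.some.inj (h7.symm.trans (q6.symm.trans h6))
    rw [h0, h1, h2, h3, h4, h5, h6, h7]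
    simp only [c1_some]
    have t0 := (coxAdj_of p [] (d :: h) j_ab h0 h1).adj
    have t2 := (mixAdj_of p [b] (b :: h) m_ad m_ad' h2 h3).adj
    have t4 := (coxAdj_of p [d] (h) j_ba h4 h5).adj
    have t5 := (mixAdj_of p [] (b :: a :: h) m_da m_da' h5 h6).adj
    have t7 := (mixAdj_of p [a, b] (h) m_da m_da' h7 h0).adj
    have f03 : A0 ≠ A3 := (cls_ne p [a, b, a, d] [b, d, a, b] h a d i_ad h0 h3 (by simp [proj, e_ab, e_ba, e_ad, e_da, e_bd, e_db]))
    have f05 : A0 ≠ A5 := (cls_ne p [a, b, a, d] [d, a, b, a] h a d i_ad h0 h5 (by simp [proj, e_ab, e_ba, e_ad, e_da, e_bd, e_db]))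
    have f15 : A1 ≠ A5 := (cls_ne p [b, a, b, d] [d, a, b, a] h a d i_ad h1 h5 (by simp [proj, e_ab, e_ba, e_ad, e_da, e_bd, e_db]))
    have f16 : A1 ≠ A6 := (cls_ne p [b, a, b, d] [a, d, b, a] h a d i_ad h1 h6 (by simp [proj, e_ab, e_ba, e_ad, e_da, e_bd, e_db]))
    have f36 : A3 ≠ A6 := (cls_ne p [b, d, a, b] [a, d, b, a] h a d i_ad h3 h6 (by simp [proj, e_ab, e_ba, e_ad, e_da, e_bd, e_db]))
    rw [r1] at t2
    rw [r3] at t4
    rw [r6] at t7
    rw [r1, r3, r6, hv.refl, hv.refl, hv.refl]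
    simp only [mul_one]
    exact hv.five t0 t2 t4 t5 t7 f03 f05 f15 f16 f36

theorem relT3 (hv : VCoc c0) (p h : List (Letter m)) (a b d : Letter m)
    (e_ad : a ≠ d) (j_ab : adjc a b) (j_bd : adjc b d)
    (hg : Good init (p ++ a :: b :: a :: d :: b :: a :: h)) :
    cw c0 (p ++ a :: b :: a :: d :: b :: a :: h) (p ++ b :: a :: b :: d :: b :: a :: h) *
      cw c0 (p ++ b :: a :: b :: d :: b :: a :: h) (p ++ b :: a :: d :: b :: d :: a :: h) *
      cw c0 (p ++ b :: a :: d :: b :: d :: a :: h) (p ++ b :: d :: a :: b :: d :: a :: h) *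
      cw c0 (p ++ b :: d :: a :: b :: d :: a :: h) (p ++ b :: d :: a :: b :: a :: d :: h) *
      cw c0 (p ++ b :: d :: a :: b :: a :: d :: h) (p ++ b :: d :: b :: a :: b :: d :: h) *
      cw c0 (p ++ b :: d :: b :: a :: b :: d :: h) (p ++ d :: b :: d :: a :: b :: d :: h) *
      cw c0 (p ++ d :: b :: d :: a :: b :: d :: h) (p ++ d :: b :: a :: d :: b :: d :: h) *
      cw c0 (p ++ d :: b :: a :: d :: b :: d :: h) (p ++ d :: b :: a :: b :: d :: b :: h) *
      cw c0 (p ++ d :: b :: a :: b :: d :: b :: h) (p ++ d :: a :: b :: a :: d :: b :: h) *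
      cw c0 (p ++ d :: a :: b :: a :: d :: b :: h) (p ++ a :: d :: b :: a :: d :: b :: h) *
      cw c0 (p ++ a :: d :: b :: a :: d :: b :: h) (p ++ a :: d :: b :: d :: a :: b :: h) *
      cw c0 (p ++ a :: d :: b :: d :: a :: b :: h) (p ++ a :: b :: d :: b :: a :: b :: h) *
      cw c0 (p ++ a :: b :: d :: b :: a :: b :: h) (p ++ a :: b :: d :: a :: b :: a :: h) *
      cw c0 (p ++ a :: b :: d :: a :: b :: a :: h) (p ++ a :: b :: a :: d :: b :: a :: h) = 1 := by
  have j_ba : adjc b a := (adjc_comm _ _).mp j_ab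
  have j_db : adjc d b := (adjc_comm _ _).mp j_bd
  have n_ad : ¬ adjc a d := not_adjc_of j_ab j_bd e_ad
  have n_da : ¬ adjc d a := fun h => n_ad ((adjc_comm _ _).mp h)
  have e_ab := ne_of_adjc j_ab
  have e_bd := ne_of_adjc j_bd
  have e_ba := e_ab.symm
  have e_da := e_ad.symm
  have e_db := e_bd.symm
  have i_ad : Indep a d := by
    have h1 : a.1 = d.1 := j_ab.1.trans j_bd.1
    exact Or.inl ⟨h1, far_of e_ad n_ad h1⟩
  have i_da := indep_symm i_ad
  have hib : ¬ Indep a b := by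
    rintro (⟨-, h1⟩ | ⟨h1, -⟩)
    · have := j_ab.2
      omega
    · exact h1 j_ab.1
  have d0 : IsDouble (p ++ a :: b :: a :: d :: b :: a :: h) := (isDouble_iff _).mpr hg
  have d1 : IsDouble (p ++ b :: a :: b :: d :: b :: a :: h) := ((Step.braid [] (d :: b :: a :: h) j_ab).append_left p).dbl.mp d0
  have d2 : IsDouble (p ++ b :: a :: d :: b :: d :: a :: h) := ((Step.braid [b, a] (a :: h) j_bd).append_left p).dbl.mp d1
  have d3 : IsDouble (p ++ b :: d :: a :: b :: d :: a :: h) := ((Step.swap [b] (b :: d :: a :: h) e_ad n_ad).append_left p).dbl.mp d2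
  have d4 : IsDouble (p ++ b :: d :: a :: b :: a :: d :: h) := ((Step.swap [b, d, a, b] (h) e_da n_da).append_left p).dbl.mp d3
  have d5 : IsDouble (p ++ b :: d :: b :: a :: b :: d :: h) := ((Step.braid [b, d] (d :: h) j_ab).append_left p).dbl.mp d4
  have d6 : IsDouble (p ++ d :: b :: d :: a :: b :: d :: h) := ((Step.braid [] (a :: b :: d :: h) j_bd).append_left p).dbl.mp d5
  have d7 : IsDouble (p ++ d :: b :: a :: d :: b :: d :: h) := ((Step.swap [d, b] (b :: d :: h) e_da n_da).append_left p).dbl.mp d6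
  have d8 : IsDouble (p ++ d :: b :: a :: b :: d :: b :: h) := ((Step.braid [d, b, a] (h) j_db).append_left p).dbl.mp d7
  have d9 : IsDouble (p ++ d :: a :: b :: a :: d :: b :: h) := ((Step.braid [d] (d :: b :: h) j_ba).append_left p).dbl.mp d8
  have d10 : IsDouble (p ++ a :: d :: b :: a :: d :: b :: h) := ((Step.swap [] (b :: a :: d :: b :: h) e_da n_da).append_left p).dbl.mp d9
  have d11 : IsDouble (p ++ a :: d :: b :: d :: a :: b :: h) := ((Step.swap [a, d, b] (b :: h) e_ad n_ad).append_left p).dbl.mp d10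
  have d12 : IsDouble (p ++ a :: b :: d :: b :: a :: b :: h) := ((Step.braid [a] (a :: b :: h) j_db).append_left p).dbl.mp d11
  have d13 : IsDouble (p ++ a :: b :: d :: a :: b :: a :: h) := ((Step.braid [a, b, d] (h) j_ba).append_left p).dbl.mp d12
  obtain ⟨A0, h0⟩ := exists_cls d0
  obtain ⟨A1, h1⟩ := exists_cls d1
  obtain ⟨A2, h2⟩ := exists_cls d2
  obtain ⟨A3, h3⟩ := exists_cls d3
  obtain ⟨A4, h4⟩ := exists_cls d4
  obtain ⟨A5, h5⟩ := exists_cls d5
  obtain ⟨A6, h6⟩ := exists_cls d6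
  obtain ⟨A7, h7⟩ := exists_cls d7
  obtain ⟨A8, h8⟩ := exists_cls d8
  obtain ⟨A9, h9⟩ := exists_cls d9
  obtain ⟨A10, h10⟩ := exists_cls d10
  obtain ⟨A11, h11⟩ := exists_cls d11
  obtain ⟨A12, h12⟩ := exists_cls d12
  obtain ⟨A13, h13⟩ := exists_cls d13
  unfold cw
  have q2 : cls (p ++ b :: a :: d :: b :: d :: a :: h) = cls (p ++ b :: d :: a :: b :: d :: a :: h) := cls_swap p [b] (b :: d :: a :: h) i_ad
  have q3 : cls (p ++ b :: d :: a :: b :: d :: a :: h) = cls (p ++ b :: d :: a :: b :: a :: d :: h) := cls_swap p [b, d, a, b] (h) i_da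
  have q6 : cls (p ++ d :: b :: d :: a :: b :: d :: h) = cls (p ++ d :: b :: a :: d :: b :: d :: h) := cls_swap p [d, b] (b :: d :: h) i_da
  have q9 : cls (p ++ d :: a :: b :: a :: d :: b :: h) = cls (p ++ a :: d :: b :: a :: d :: b :: h) := cls_swap p [] (b :: a :: d :: b :: h) i_da
  have q10 : cls (p ++ a :: d :: b :: a :: d :: b :: h) = cls (p ++ a :: d :: b :: d :: a :: b :: h) := cls_swap p [a, d, b] (b :: h) i_ad
  have q13 : cls (p ++ a :: b :: d :: a :: b :: a :: h) = cls (p ++ a :: b :: a :: d :: b :: a :: h) := cls_swap p [a, b] (b :: a :: h) i_da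
  have r2 : A3 = A2 := Option.some.inj (h3.symm.trans (q2.symm.trans h2))
  have r3 : A4 = A3 := Option.some.inj (h4.symm.trans (q3.symm.trans h3))
  have r6 : A7 = A6 := Option.some.inj (h7.symm.trans (q6.symm.trans h6))
  have r9 : A10 = A9 := Option.some.inj (h10.symm.trans (q9.symm.trans h9))
  have r10 : A11 = A10 := Option.some.inj (h11.symm.trans (q10.symm.trans h10))
  have r13 : A0 = A13 := Option.some.inj (h0.symm.trans (q13.symm.trans h13))
  rw [h0, h1, h2, h3, h4, h5, h6, h7, h8, h9, h10, h11, h12, h13]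
  simp only [c1_some]
  have t0 := coxAdj_of p [] (d :: b :: a :: h) j_ab h0 h1
  have t1 := coxAdj_of p [b, a] (a :: h) j_bd h1 h2
  rw [← j_ab.1] at t1
  have t4 := coxAdj_of p [b, d] (d :: h) j_ab h4 h5
  have t5 := coxAdj_of p [] (a :: b :: d :: h) j_bd h5 h6
  rw [← j_ab.1] at t5
  have t7 := coxAdj_of p [d, b, a] (h) j_db h7 h8
  rw [← (j_ab.1.trans j_bd.1)] at t7
  have t8 := coxAdj_of p [d] (d :: b :: h) j_ba h8 h9
  rw [← j_ab.1] at t8
  have t11 := coxAdj_of p [a] (a :: b :: h) j_db h11 h12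
  rw [← (j_ab.1.trans j_bd.1)] at t11
  have t12 := coxAdj_of p [a, b, d] (h) j_ba h12 h13
  rw [← j_ab.1] at t12
  -- [2, 3, 6, 9, 10, 13][0, 1, 4, 5, 7, 8, 11, 12]
  rw [r3, r2] at t4
  rw [r6] at t7
  rw [r10, r9] at t11
  rw [← r13] at t12
  have f1_2 : A1 ≠ A2 := (cls_ne p [b, a, b, d, b, a] [b, a, d, b, d, a] h a b hib h1 h2 (by simp [proj, e_ab, e_ba, e_ad, e_da, e_bd, e_db]))
  have f1_5 : A1 ≠ A5 := (cls_ne p [b, a, b, d, b, a] [b, d, b, a, b, d] h a b hib h1 h5 (by simp [proj, e_ab, e_ba, e_ad, e_da, e_bd, e_db]))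
  have f1_6 : A1 ≠ A6 := (cls_ne p [b, a, b, d, b, a] [d, b, d, a, b, d] h a b hib h1 h6 (by simp [proj, e_ab, e_ba, e_ad, e_da, e_bd, e_db]))
  have f1_8 : A1 ≠ A8 := (cls_ne p [b, a, b, d, b, a] [d, b, a, b, d, b] h a b hib h1 h8 (by simp [proj, e_ab, e_ba, e_ad, e_da, e_bd, e_db]))
  have f1_9 : A1 ≠ A9 := (cls_ne p [b, a, b, d, b, a] [d, a, b, a, d, b] h a b hib h1 h9 (by simp [proj, e_ab, e_ba, e_ad, e_da, e_bd, e_db]))
  have f1_12 : A1 ≠ A12 := (cls_ne p [b, a, b, d, b, a] [a, b, d, b, a, b] h a b hib h1 h12 (by simp [proj, e_ab, e_ba, e_ad, e_da, e_bd, e_db]))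
  have f1_0 : A1 ≠ A0 := (cls_ne p [b, a, b, d, b, a] [a, b, a, d, b, a] h a b hib h1 h0 (by simp [proj, e_ab, e_ba, e_ad, e_da, e_bd, e_db]))
  have f2_5 : A2 ≠ A5 := (cls_ne p [b, a, d, b, d, a] [b, d, b, a, b, d] h a b hib h2 h5 (by simp [proj, e_ab, e_ba, e_ad, e_da, e_bd, e_db]))
  have f2_6 : A2 ≠ A6 := (cls_ne p [b, a, d, b, d, a] [d, b, d, a, b, d] h a b hib h2 h6 (by simp [proj, e_ab, e_ba, e_ad, e_da, e_bd, e_db]))
  have f2_8 : A2 ≠ A8 := (cls_ne p [b, a, d, b, d, a] [d, b, a, b, d, b] h a b hib h2 h8 (by simp [proj, e_ab, e_ba, e_ad, e_da, e_bd, e_db]))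
  have f2_9 : A2 ≠ A9 := (cls_ne p [b, a, d, b, d, a] [d, a, b, a, d, b] h a b hib h2 h9 (by simp [proj, e_ab, e_ba, e_ad, e_da, e_bd, e_db]))
  have f2_12 : A2 ≠ A12 := (cls_ne p [b, a, d, b, d, a] [a, b, d, b, a, b] h a b hib h2 h12 (by simp [proj, e_ab, e_ba, e_ad, e_da, e_bd, e_db]))
  have f2_0 : A2 ≠ A0 := (cls_ne p [b, a, d, b, d, a] [a, b, a, d, b, a] h a b hib h2 h0 (by simp [proj, e_ab, e_ba, e_ad, e_da, e_bd, e_db]))
  have f5_6 : A5 ≠ A6 := (cls_ne p [b, d, b, a, b, d] [d, b, d, a, b, d] h a b hib h5 h6 (by simp [proj, e_ab, e_ba, e_ad, e_da, e_bd, e_db]))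
  have f5_8 : A5 ≠ A8 := (cls_ne p [b, d, b, a, b, d] [d, b, a, b, d, b] h a b hib h5 h8 (by simp [proj, e_ab, e_ba, e_ad, e_da, e_bd, e_db]))
  have f5_9 : A5 ≠ A9 := (cls_ne p [b, d, b, a, b, d] [d, a, b, a, d, b] h a b hib h5 h9 (by simp [proj, e_ab, e_ba, e_ad, e_da, e_bd, e_db]))
  have f5_12 : A5 ≠ A12 := (cls_ne p [b, d, b, a, b, d] [a, b, d, b, a, b] h a b hib h5 h12 (by simp [proj, e_ab, e_ba, e_ad, e_da, e_bd, e_db]))
  have f5_0 : A5 ≠ A0 := (cls_ne p [b, d, b, a, b, d] [a, b, a, d, b, a] h a b hib h5 h0 (by simp [proj, e_ab, e_ba, e_ad, e_da, e_bd, e_db]))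
  have f6_8 : A6 ≠ A8 := (cls_ne p [d, b, d, a, b, d] [d, b, a, b, d, b] h a b hib h6 h8 (by simp [proj, e_ab, e_ba, e_ad, e_da, e_bd, e_db]))
  have f6_9 : A6 ≠ A9 := (cls_ne p [d, b, d, a, b, d] [d, a, b, a, d, b] h a b hib h6 h9 (by simp [proj, e_ab, e_ba, e_ad, e_da, e_bd, e_db]))
  have f6_12 : A6 ≠ A12 := (cls_ne p [d, b, d, a, b, d] [a, b, d, b, a, b] h a b hib h6 h12 (by simp [proj, e_ab, e_ba, e_ad, e_da, e_bd, e_db]))
  have f6_0 : A6 ≠ A0 := (cls_ne p [d, b, d, a, b, d] [a, b, a, d, b, a] h a b hib h6 h0 (by simp [proj, e_ab, e_ba, e_ad, e_da, e_bd, e_db]))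
  have f8_9 : A8 ≠ A9 := (cls_ne p [d, b, a, b, d, b] [d, a, b, a, d, b] h a b hib h8 h9 (by simp [proj, e_ab, e_ba, e_ad, e_da, e_bd, e_db]))
  have f8_12 : A8 ≠ A12 := (cls_ne p [d, b, a, b, d, b] [a, b, d, b, a, b] h a b hib h8 h12 (by simp [proj, e_ab, e_ba, e_ad, e_da, e_bd, e_db]))
  have f8_0 : A8 ≠ A0 := (cls_ne p [d, b, a, b, d, b] [a, b, a, d, b, a] h a b hib h8 h0 (by simp [proj, e_ab, e_ba, e_ad, e_da, e_bd, e_db]))
  have f9_12 : A9 ≠ A12 := (cls_ne p [d, a, b, a, d, b] [a, b, d, b, a, b] h a b hib h9 h12 (by simp [proj, e_ab, e_ba, e_ad, e_da, e_bd, e_db]))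
  have f9_0 : A9 ≠ A0 := (cls_ne p [d, a, b, a, d, b] [a, b, a, d, b, a] h a b hib h9 h0 (by simp [proj, e_ab, e_ba, e_ad, e_da, e_bd, e_db]))
  have f12_0 : A12 ≠ A0 := (cls_ne p [a, b, d, b, a, b] [a, b, a, d, b, a] h a b hib h12 h0 (by simp [proj, e_ab, e_ba, e_ad, e_da, e_bd, e_db]))
  rw [r3, r2, r6, r10, r9, ← r13]
  simp only [hv.refl, mul_one]
  refine hv.eight a.1 t0 t1 t4 t5 t7 t8 t11 t12 ?_
  simp only [List.nodup_cons, List.mem_cons, List.not_mem_nil, or_false, not_or, List.nodup_nil,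
    not_false_eq_true, and_true]
  exact ⟨⟨f1_2, f1_5, f1_6, f1_8, f1_9, f1_12, f1_0⟩, ⟨f2_5, f2_6, f2_8, f2_9, f2_12, f2_0⟩, ⟨f5_6, f5_8, f5_9, f5_12, f5_0⟩, ⟨f6_8, f6_9, f6_12, f6_0⟩, ⟨f8_9, f8_12, f8_0⟩, ⟨f9_12, f9_0⟩, f12_0⟩

theorem coc_cw (hv : VCoc c0) : Coc (cw c0) where
  A := fun u v => hv.c1_symm _ _
  B := fun p h h' a b hab hs hg => relB hv p h h' a b hab hs hg
  T1 := fun p h a b d h1 h2 h3 h4 h5 h6 _ => relT1 hv p h a b d h1 h2 h3 h4 h5 h6
  T2 := fun p h a b d h1 h2 h3 h4 h5 hg => relT2 hv p h a b d h1 h2 h3 h4 h5 hg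
  T3 := fun p h a b d h1 h2 h3 hg => relT3 hv p h a b d h1 h2 h3 hg

end

end N337.DW
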