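import Pool.Agent.N337.DW.Main

/-!
# The flip graph has exactly one edge for each flip
-/

namespace N337.DW
open SimpleGraph

variable {m : ℕ}

/-- `v` arises from `u` by the flip of the letters `a`, `b` at place `k`: either `a`, `b` have the
same colour and neighbouring indices and a factor `a b a` of `u` is replaced by `b a b`, or `a`,
`b` have different colours and the same index and a factor `a b` of `u` is replaced by `b a`.
The place `k` is the number of letters `a` and `b` of `u` in front of this factor. -/
inductive FlipAt (a b : Letter m) (k : ℕ) : List (Letter m) → List (Letter m) → Prop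
  | cox (p q : List (Letter m))
      (h : a.1 = b.1 ∧ (a.2.val + 1 = b.2.val ∨ b.2.val + 1 = a.2.val))
      (hk : (p.filter (fun x => x = a ∨ x = b)).length = k) :
      FlipAt a b k (p ++ a :: b :: a :: q) (p ++ b :: a :: b :: q)
  | mix (p q : List (Letter m)) (h : a.1 ≠ b.1 ∧ a.2 = b.2)
      (hk : (p.filter (fun x => x = a ∨ x = b)).length = k) :
      FlipAt a b k (p ++ a :: b :: q) (p ++ b :: a :: q)

theorem exists_flipAt_iff (u v : List (Letter m)) :
    (∃ a b k, FlipAt a b k u v) ↔ MixStep u v ∨ ∃ c, CoxStep c u v := by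
  constructor
  · rintro ⟨a, b, k, p, q, h, hk⟩
    · right
      obtain ⟨c, i⟩ := a
      obtain ⟨c', j⟩ := b
      obtain ⟨hc, h3⟩ := h
      dsimp only at hc h3
      subst hc
      exact ⟨c, CoxStep.mk (c := c) p q i j h3⟩
    · left
      rename_i p q h hk
      obtain ⟨c, i⟩ := a
      obtain ⟨c', j⟩ := b
      obtain ⟨h3, h4⟩ := h
      dsimp only at h3 h4
      subst h4
      have hc : c' = !c := by cases c <;> cases c' <;> simp_all
      subst hc
      exact MixStep.mk p q c i
  · rintro (⟨p, q, c, i⟩ | ⟨c, p, q, i, j, h⟩)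
    · exact ⟨_, _, _, FlipAt.mix p q ⟨by simp, rfl⟩ rfl⟩
    · exact ⟨_, _, _, FlipAt.cox p q ⟨rfl, h⟩ rfl⟩

theorem perm_of_eq {u v : Dbl m} (h : Vert.mk u = Vert.mk v) : u.1.Perm v.1 := by
  have h1 : Relation.EqvGen (fun x y : Dbl m => CommStep x.1 y.1) u v :=
    Quotient.exact (s := commSetoid m) h
  clear h
  induction h1 with
  | rel u v h =>
    obtain ⟨u, hu⟩ := u
    obtain ⟨v, hv⟩ := v
    dsimp only at h ⊢
    obtain ⟨p, q, a, b, -⟩ := h
    exact List.Perm.append_left p (List.Perm.swap b a q)
  | refl u => exact List.Perm.refl _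
  | symm u v _ ih => exact ih.symm
  | trans u v w _ _ ih1 ih2 => exact ih1.trans ih2

theorem pos_unique {α : Type*} {P P' s s' t t' : List α} {x y x' y' : α} (hxy : x ≠ y)
    (hxy' : x' ≠ y') (h1 : P ++ x :: s = P' ++ x' :: s') (h2 : P ++ y :: t = P' ++ y' :: t') :
    P.length = P'.length ∧ x = x' ∧ y = y' := by
  have aux : ∀ (A B s t : List α) (z : α) , A.length < B.length → A ++ z :: s = B ++ t →
      B[A.length]? = some z := by
    intro A B s t z hl h
    have h3 := congrArg (fun l => l[A.length]?) h
    rw [List.getElem?_append_left hl, List.getElem?_append_right (le_refl _)] at h3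
    simpa using h3.symm
  rcases lt_trichotomy P.length P'.length with hl | hl | hl
  · exfalso
    have e1 := aux _ _ _ _ _ hl h1
    have e2 := aux _ _ _ _ _ hl h2
    rw [e1] at e2
    exact hxy (Option.some.inj e2)
  · refine ⟨hl, ?_, ?_⟩
    · exact (List.cons.inj (List.append_inj h1 hl).2).1
    · exact (List.cons.inj (List.append_inj h2 hl).2).1
  · exfalso
    have e1 := aux _ _ _ _ _ hl h1.symm
    have e2 := aux _ _ _ _ _ hl h2.symm
    rw [e1] at e2
    exact hxy' (Option.some.inj e2)

theorem mix_dep {a b : Letter m} (h : a.1 ≠ b.1 ∧ a.2 = b.2) : ¬ Indep a b := by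
  rintro (⟨h1, -⟩ | ⟨-, h2⟩)
  · exact h.1 h1
  · exact h2 h.2

theorem cox_dep {a b : Letter m} (h : adjc a b) : ¬ Indep a b := by
  rintro (⟨-, h1⟩ | ⟨h1, -⟩)
  · have := h.2
    omega
  · exact h1 h.1

/-- The classes of the words before and after a flip determine the flip. -/
theorem flipAt_unique {a b a' b' : Letter m} {k k' : ℕ} {u v u' v' : Dbl m}
    (h : FlipAt a b k u.1 v.1) (h' : FlipAt a' b' k' u'.1 v'.1)
    (hu : Vert.mk u = Vert.mk u') (hv : Vert.mk v = Vert.mk v') :
    a = a' ∧ b = b' ∧ k = k' := by
  have cu : ∀ x, List.count x u.1 = List.count x u'.1 := fun x => (perm_of_eq hu).count_eq x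
  have cv : ∀ x, List.count x v.1 = List.count x v'.1 := fun x => (perm_of_eq hv).count_eq x
  have pu : ∀ x y, ¬ Indep x y → proj x y u.1 = proj x y u'.1 := fun x y h => proj_of_eq hu h
  have pv : ∀ x y, ¬ Indep x y → proj x y v.1 = proj x y v'.1 := fun x y h => proj_of_eq hv h
  generalize u.1 = w at *
  generalize v.1 = z at *
  generalize u'.1 = w' at *
  generalize v'.1 = z' at *
  clear hu hv u v u' v'
  obtain ⟨p, q, hab, hk⟩ | ⟨p, q, hab, hk⟩ := h
  · obtain ⟨p', q', hab', hk'⟩ | ⟨p', q', hab', hk'⟩ := h'
    · have hne : a ≠ b := ne_of_adjc hab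
      have hne' : a' ≠ b' := ne_of_adjc hab'
      have e1 : a = a' := by
        by_contra hn
        have h1 := cu a'
        have h2 := cv a'
        by_cases hb : b = a'
        · subst hb
          simp [List.count_cons, hne, hne'.symm] at h1 h2
          omega
        · simp [List.count_cons, hn, hb, hne'.symm] at h1 h2
          omega
      subst e1
      have e2 : b = b' := by
        by_contra hn
        have h1 := cu b'
        have h2 := cv b'
        simp [List.count_cons, hn, hne'] at h1 h2
        omega
      subst e2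
      have h1 := pu a b (cox_dep hab)
      have h2 := pv a b (cox_dep hab)
      rw [proj_append, proj_append] at h1 h2
      have f1 : ∀ r, proj a b (a :: b :: a :: r) = a :: b :: a :: proj a b r := by
        intro r; simp [proj]
      have f2 : ∀ r, proj a b (b :: a :: b :: r) = b :: a :: b :: proj a b r := by
        intro r; simp [proj]
      rw [f1, f1] at h1
      rw [f2, f2] at h2
      have h3 := (pos_unique hne hne h1 h2).1
      exact ⟨rfl, rfl, by rw [← hk, ← hk']; exact h3⟩
    · exfalso
      have hne : a ≠ b := ne_of_adjc hab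
      have h1 := cu a
      have h2 := cv a
      simp only [List.count_append, List.count_cons, beq_self_eq_true, if_true] at h1 h2
      simp only [beq_iff_eq, hne.symm, if_false] at h1 h2
      omega
  · obtain ⟨p', q', hab', hk'⟩ | ⟨p', q', hab', hk'⟩ := h'
    · exfalso
      have hne' : a' ≠ b' := ne_of_adjc hab'
      have h1 := cu a'
      have h2 := cv a'
      simp only [List.count_append, List.count_cons, beq_self_eq_true, if_true] at h1 h2
      simp only [beq_iff_eq, hne'.symm, if_false] at h1 h2
      omega
    · have hne : a ≠ b := fun h => hab.1 (congrArg Prod.fst h)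
      have hne' : a' ≠ b' := fun h => hab'.1 (congrArg Prod.fst h)
      have h1 := pu a b (mix_dep hab)
      have h2 := pv a b (mix_dep hab)
      rw [proj_append, proj_append] at h1 h2
      have f1 : ∀ r, proj a b (a :: b :: r) = a :: b :: proj a b r := by
        intro r; simp [proj]
      have f2 : ∀ r, proj a b (b :: a :: r) = b :: a :: proj a b r := by
        intro r; simp [proj]
      rw [f1] at h1
      rw [f2] at h2
      by_cases hi : a.2 = a'.2
      · have hset : (a' = a ∧ b' = b) ∨ (a' = b ∧ b' = a) := by
          obtain ⟨c1, i1⟩ := a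
          obtain ⟨c2, i2⟩ := b
          obtain ⟨c3, i3⟩ := a'
          obtain ⟨c4, i4⟩ := b'
          obtain ⟨g1, g2⟩ := hab
          obtain ⟨g3, g4⟩ := hab'
          dsimp only at g1 g2 g3 g4 hi
          subst g2 g4 hi
          revert g1 g3
          cases c1 <;> cases c2 <;> cases c3 <;> cases c4 <;> simp
        rcases hset with ⟨rfl, rfl⟩ | ⟨rfl, rfl⟩
        · rw [f1] at h1
          rw [f2] at h2
          have h3 := (pos_unique hne hne h1 h2).1
          exact ⟨rfl, rfl, by rw [← hk, ← hk']; exact h3⟩
        · exfalso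
          rw [f2] at h1
          rw [f1] at h2
          exact hne (pos_unique hne hne' h1 h2).2.1
      · exfalso
        have g1 : a' ≠ a := by rintro rfl; exact hi rfl
        have g2 : a' ≠ b := by rintro rfl; exact hi hab.2
        have g3 : b' ≠ a := by rintro rfl; exact hi hab'.2.symm
        have g4 : b' ≠ b := by rintro rfl; exact hi (hab.2.trans hab'.2.symm)
        have f3 : proj a b (a' :: b' :: q') = proj a b (b' :: a' :: q') := by
          simp [proj, g1, g2, g3, g4]
        rw [f3] at h1
        rw [← h1] at h2
        have h3 := List.append_cancel_left h2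
        exact hne (List.cons.inj h3).1.symm

end N337.DW
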